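import Mathlib

set_option autoImplicit false

open Set Filter Topology

namespace Pool.Agent.Helper268.Assoc

/-- Continuous associative operations on the line that are open, surjective and have
connected strict superlevel and sublevel sets. -/
structure Nice (f : ℝ → ℝ → ℝ) : Prop where
  cont : Continuous (fun p : ℝ × ℝ => f p.1 p.2)
  assoc : ∀ a b c, f (f a b) c = f a (f b c)
  conn_gt : ∀ c, IsPreconnected {p : ℝ × ℝ | c < f p.1 p.2}
  conn_lt : ∀ c, IsPreconnected {p : ℝ × ℝ | f p.1 p.2 < c}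
  opn : IsOpenMap (fun p : ℝ × ℝ => f p.1 p.2)
  surj : ∀ c, ∃ a b, f a b = c

variable {f : ℝ → ℝ → ℝ}

lemma Nice.contL (h : Nice f) (a : ℝ) : Continuous (f a) :=
  h.cont.comp (by fun_prop : Continuous fun y : ℝ => (a, y))

lemma Nice.contR (h : Nice f) (b : ℝ) : Continuous (fun x => f x b) :=
  h.cont.comp (by fun_prop : Continuous fun x : ℝ => (x, b))

lemma Nice.op (h : Nice f) : Nice (fun x y => f y x) where
  cont := h.cont.comp continuous_swap
  assoc := fun a b c => (h.assoc c b a).symm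
  conn_gt := fun c => by
    have := (h.conn_gt c).preimage_of_isOpenMap (Homeomorph.prodComm ℝ ℝ).injective
      (Homeomorph.prodComm ℝ ℝ).isOpenMap (by
        intro x _
        exact ⟨(Homeomorph.prodComm ℝ ℝ).symm x, by simp⟩)
    exact this
  conn_lt := fun c => by
    have := (h.conn_lt c).preimage_of_isOpenMap (Homeomorph.prodComm ℝ ℝ).injective
      (Homeomorph.prodComm ℝ ℝ).isOpenMap (by
        intro x _
        exact ⟨(Homeomorph.prodComm ℝ ℝ).symm x, by simp⟩)
    exact this
  opn := h.opn.comp (Homeomorph.prodComm ℝ ℝ).isOpenMap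
  surj := fun c => by
    obtain ⟨a, b, hab⟩ := h.surj c
    exact ⟨b, a, hab⟩

lemma Nice.neg (h : Nice f) : Nice (fun x y => -f (-x) (-y)) where
  cont := by
    have : Continuous fun p : ℝ × ℝ => (-p.1, -p.2) := by fun_prop
    exact (h.cont.comp this).neg
  assoc := fun a b c => by simp [h.assoc]
  conn_gt := fun c => by
    have := (h.conn_lt (-c)).preimage_of_isOpenMap (Homeomorph.neg (ℝ × ℝ)).injective
      (Homeomorph.neg (ℝ × ℝ)).isOpenMap (by
        intro x _
        exact ⟨-x, by simp⟩)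
    convert this using 1
    ext p
    simp only [mem_ofPred_eq, mem_preimage, Homeomorph.coe_neg, Prod.fst_neg, Prod.snd_neg]
    constructor <;> intro hh <;> linarith
  conn_lt := fun c => by
    have := (h.conn_gt (-c)).preimage_of_isOpenMap (Homeomorph.neg (ℝ × ℝ)).injective
      (Homeomorph.neg (ℝ × ℝ)).isOpenMap (by
        intro x _
        exact ⟨-x, by simp⟩)
    convert this using 1
    ext p
    simp only [mem_ofPred_eq, mem_preimage, Homeomorph.coe_neg, Prod.fst_neg, Prod.snd_neg]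
    constructor <;> intro hh <;> linarith
  opn := by
    have h1 : IsOpenMap (fun p : ℝ × ℝ => f (-p).1 (-p).2) :=
      h.opn.comp (Homeomorph.neg (ℝ × ℝ)).isOpenMap
    exact (Homeomorph.neg ℝ).isOpenMap.comp h1
  surj := fun c => by
    obtain ⟨a, b, hab⟩ := h.surj (-c)
    exact ⟨-a, -b, by simp [hab]⟩

/-- On an open region a non-strict lower bound is strict. -/
lemma Nice.strict_lo (h : Nice f) {U : Set (ℝ × ℝ)} (hU : IsOpen U) {c : ℝ}
    (hf : ∀ p ∈ U, c ≤ f p.1 p.2) : ∀ p ∈ U, c < f p.1 p.2 := by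
  intro p hp
  rcases lt_or_eq_of_le (hf p hp) with h1 | h1
  · exact h1
  exfalso
  have ho := h.opn U hU
  have hm : c ∈ (fun p : ℝ × ℝ => f p.1 p.2) '' U := ⟨p, hp, h1.symm⟩
  obtain ⟨ε, hε, hb⟩ := Metric.isOpen_iff.1 ho c hm
  have : c - ε / 2 ∈ Metric.ball c ε := by
    rw [Metric.mem_ball, Real.dist_eq]
    rw [abs_of_neg (by linarith)]; linarith
  obtain ⟨q, hq, hq2⟩ := hb this
  have := hf q hq
  simp only at hq2
  linarith

lemma Nice.strict_hi (h : Nice f) {U : Set (ℝ × ℝ)} (hU : IsOpen U) {c : ℝ}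
    (hf : ∀ p ∈ U, f p.1 p.2 ≤ c) : ∀ p ∈ U, f p.1 p.2 < c := by
  intro p hp
  have hV : IsOpen ((fun p : ℝ × ℝ => -p) ⁻¹' U) := hU.preimage continuous_neg
  have := h.neg.strict_lo hV (c := -c) (by
    intro q hq
    have := hf (-q) hq
    simp only [Prod.fst_neg, Prod.snd_neg] at this
    simpa using this) (-p) (by simpa using hp)
  simp only [Prod.fst_neg, Prod.snd_neg, neg_neg] at this
  linarith

/-- Row dichotomy for upper bounds. -/
lemma Nice.side (h : Nice f) {a c : ℝ} (ha : ∀ y, f a y ≤ c) :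
    (∀ x y, x ≤ a → f x y ≤ c) ∨ (∀ x y, a ≤ x → f x y ≤ c) := by
  by_contra hcon
  push Not at hcon
  obtain ⟨⟨x1, y1, hx1, h1⟩, x2, y2, hx2, h2⟩ := hcon
  have hp := ((h.conn_gt c).image Prod.fst continuous_fst.continuousOn).ordConnected
  have := hp.out (x := x1) (y := x2) ⟨(x1, y1), h1, rfl⟩ ⟨(x2, y2), h2, rfl⟩ ⟨hx1, hx2⟩
  obtain ⟨⟨x, y⟩, hq, hxa⟩ := this
  simp only at hxa
  subst hxa
  exact absurd (ha y) (not_le.2 hq)

lemma Nice.side' (h : Nice f) {a c : ℝ} (ha : ∀ y, c ≤ f a y) :
    (∀ x y, x ≤ a → c ≤ f x y) ∨ (∀ x y, a ≤ x → c ≤ f x y) := by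
  rcases h.neg.side (a := -a) (c := -c) (fun y => by simpa using ha (-y)) with h1 | h1
  · right
    intro x y hx
    have := h1 (-x) (-y) (by linarith)
    simpa using this
  · left
    intro x y hx
    have := h1 (-x) (-y) (by linarith)
    simpa using this

/-- Intermediate values on a row. -/
lemma ivt {g : ℝ → ℝ} (hg : Continuous g) {u v t : ℝ} (hu : g u ≤ t) (hv : t ≤ g v) :
    ∃ s, g s = t :=
  mem_range_of_exists_le_of_exists_ge hg ⟨u, hu⟩ ⟨v, hv⟩

lemma ivt_Icc {g : ℝ → ℝ} (hg : Continuous g) {u v t : ℝ} (huv : u ≤ v) (hu : g u ≤ t)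
    (hv : t ≤ g v) : ∃ s, u ≤ s ∧ s ≤ v ∧ g s = t := by
  obtain ⟨s, hs, hst⟩ := intermediate_value_Icc huv hg.continuousOn ⟨hu, hv⟩
  exact ⟨s, hs.1, hs.2, hst⟩

/-- If a column is constant the operation is the second projection. -/
lemma Nice.proj_of_col (h : Nice f) {b c : ℝ} (hb : ∀ x, f x b = c) : ∀ x y, f x y = y := by
  -- a general step
  have key : ∀ b c : ℝ, (∀ x, f x b = c) → c = b ∧ ∃ l r, l < b ∧ b < r ∧
      ∀ y, l ≤ y → y ≤ r → ∀ x, f x y = y := by
    intro b c hb
    have s1 : (∀ y x, y ≤ b → f x y ≤ c) ∨ (∀ y x, b ≤ y → f x y ≤ c) :=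
      h.op.side (a := b) (c := c) (fun y => (hb y).le)
    have s2 : (∀ y x, y ≤ b → c ≤ f x y) ∨ (∀ y x, b ≤ y → c ≤ f x y) :=
      h.op.side' (a := b) (c := c) (fun y => (hb y).ge)
    have ob1 : IsOpen {p : ℝ × ℝ | p.2 < b} := isOpen_lt continuous_snd continuous_const
    have ob2 : IsOpen {p : ℝ × ℝ | b < p.2} := isOpen_lt continuous_const continuous_snd
    -- orientation
    have hor : ((∀ x y, y < b → f x y < c) ∧ (∀ x y, b < y → c < f x y)) ∨
        ((∀ x y, y < b → c < f x y) ∧ (∀ x y, b < y → f x y < c)) := by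
      rcases s1 with s1 | s1 <;> rcases s2 with s2 | s2
      · exfalso
        have := h.strict_lo ob1 (c := c) (fun p hp => s2 p.2 p.1 (le_of_lt hp)) (0, b - 1)
          (by simp)
        have h3 := s1 (b - 1) 0 (by linarith)
        simp only at this h3
        linarith
      · left
        constructor
        · intro x y hy
          exact h.strict_hi ob1 (c := c) (fun p hp => s1 p.2 p.1 (le_of_lt hp)) (x, y) hy
        · intro x y hy
          exact h.strict_lo ob2 (c := c) (fun p hp => s2 p.2 p.1 (le_of_lt hp)) (x, y) hy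
      · right
        constructor
        · intro x y hy
          exact h.strict_lo ob1 (c := c) (fun p hp => s2 p.2 p.1 (le_of_lt hp)) (x, y) hy
        · intro x y hy
          exact h.strict_hi ob2 (c := c) (fun p hp => s1 p.2 p.1 (le_of_lt hp)) (x, y) hy
      · exfalso
        have := h.strict_lo ob2 (c := c) (fun p hp => s2 p.2 p.1 (le_of_lt hp)) (0, b + 1)
          (by simp)
        have h3 := s1 (b + 1) 0 (by linarith)
        simp only at this h3
        linarith
    have hne : ∀ x y, f x y = c → y = b := by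
      intro x y hxy
      by_contra hyb
      rcases lt_or_gt_of_ne hyb with hlt | hlt <;> rcases hor with ⟨o1, o2⟩ | ⟨o1, o2⟩
      · exact absurd hxy (ne_of_lt (o1 x y hlt))
      · exact absurd hxy (ne_of_gt (o1 x y hlt))
      · exact absurd hxy (ne_of_gt (o2 x y hlt))
      · exact absurd hxy (ne_of_lt (o2 x y hlt))
    have hcb : c = b := by
      have h1 : f 0 (f 0 b) = c := by rw [← h.assoc]; exact hb _
      have h2 := hne _ _ h1
      rw [hb] at h2
      exact h2
    subst hcb
    refine ⟨rfl, ?_⟩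
    have hor2 : (∀ x y, y < c → f x y < c) ∧ (∀ x y, c < y → c < f x y) := by
      rcases hor with o | ⟨o1, o2⟩
      · exact o
      · exfalso
        have h1 := o1 (f 0 0) (c - 1) (by linarith)
        rw [h.assoc] at h1
        have h2 := o1 0 (c - 1) (by linarith)
        have h3 := o2 0 _ h2
        linarith
    obtain ⟨o1, o2⟩ := hor2
    refine ⟨f c (c - 1), f c (c + 1), o1 _ _ (by linarith), o2 _ _ (by linarith), ?_⟩
    intro y hy1 hy2 x
    obtain ⟨s, hs⟩ := ivt (h.contL c) hy1 hy2
    have hfix : f c y = y := by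
      rw [← hs, ← h.assoc, hb]
    calc f x y = f x (f c y) := by rw [hfix]
      _ = f (f x c) y := (h.assoc _ _ _).symm
      _ = f c y := by rw [hb]
      _ = y := hfix
  have hclosed : IsClosed {y : ℝ | ∀ x, f x y = y} := by
    simp only [ofPred_forall]
    exact isClosed_iInter fun x => isClosed_eq (h.contL x) continuous_id
  have hopen : IsOpen {y : ℝ | ∀ x, f x y = y} := by
    rw [isOpen_iff_mem_nhds]
    intro y hy
    obtain ⟨-, l, r, hl, hr, hlr⟩ := key y y hy
    filter_upwards [Icc_mem_nhds hl hr] with z hz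
    exact hlr z hz.1 hz.2
  have hne : {y : ℝ | ∀ x, f x y = y}.Nonempty := by
    obtain ⟨hcb, l, r, hl, hr, hlr⟩ := key b c hb
    exact ⟨b, hlr b hl.le hr.le⟩
  have huniv := IsClopen.eq_univ ⟨hclosed, hopen⟩ hne
  intro x y
  have : y ∈ {y : ℝ | ∀ x, f x y = y} := by rw [huniv]; trivial
  exact this x

/-- No constant rows or columns. -/
structure NP (f : ℝ → ℝ → ℝ) : Prop where
  row : ∀ a c, ¬ ∀ y, f a y = c
  col : ∀ b c, ¬ ∀ x, f x b = c

lemma NP.op (h : NP f) : NP (fun x y => f y x) := ⟨h.col, h.row⟩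

lemma NP.neg (h : NP f) : NP (fun x y => -f (-x) (-y)) where
  row := fun a c hh => h.row (-a) (-c) (fun y => by
    have := hh (-y)
    simp only [neg_neg] at this
    linarith)
  col := fun b c hh => h.col (-b) (-c) (fun x => by
    have := hh (-x)
    simp only [neg_neg] at this
    linarith)


/-- A compact interval mapped into itself by squaring contains an idempotent. -/
lemma Nice.exists_idem (h : Nice f) {p q : ℝ} (hpq : p ≤ q)
    (hK : ∀ x, p ≤ x → x ≤ q → p ≤ f x x ∧ f x x ≤ q) : ∃ e, p ≤ e ∧ e ≤ q ∧ f e e = e := by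
  have h1 := hK p le_rfl hpq
  have h2 := hK q hpq le_rfl
  have hc' : Continuous (fun x : ℝ => x - f x x) :=
    continuous_id.sub (h.cont.comp (by fun_prop : Continuous fun x : ℝ => (x, x)))
  obtain ⟨s, hs1, hs2, hs⟩ := ivt_Icc (t := 0) hc' hpq (by linarith) (by linarith)
  exact ⟨s, hs1, hs2, by linarith⟩

/-- Closure of a bounded row. -/
lemma Nice.row_closure (h : Nice f) {a P Q : ℝ} (ha : ∀ y, P ≤ f a y ∧ f a y ≤ Q) :
    ∃ p q, p ≤ q ∧ P ≤ p ∧ q ≤ Q ∧ closure (range (f a)) = Icc p q ∧
      (∀ x, p ≤ x → x ≤ q → ∀ y, p ≤ f x y ∧ f x y ≤ q) := by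
  have hsub : closure (range (f a)) ⊆ Icc P Q :=
    closure_minimal (by rintro _ ⟨y, rfl⟩; exact ha y) isClosed_Icc
  have hcomp : IsCompact (closure (range (f a))) :=
    isCompact_Icc.of_isClosed_subset isClosed_closure hsub
  have hconn : IsConnected (closure (range (f a))) := (isConnected_range (h.contL a)).closure
  have heq := eq_Icc_of_connected_compact hconn hcomp
  set p := sInf (closure (range (f a)))
  set q := sSup (closure (range (f a)))
  have hpq : p ≤ q := by
    have := hconn.nonempty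
    rw [heq] at this
    exact nonempty_Icc.1 this
  have hp : p ∈ closure (range (f a)) := by rw [heq]; exact left_mem_Icc.2 hpq
  have hq : q ∈ closure (range (f a)) := by rw [heq]; exact right_mem_Icc.2 hpq
  refine ⟨p, q, hpq, (hsub hp).1, (hsub hq).2, heq, ?_⟩
  intro x hx1 hx2 y
  have hx : x ∈ closure (range (f a)) := by rw [heq]; exact ⟨hx1, hx2⟩
  have hm : MapsTo (fun x => f x y) (range (f a)) (range (f a)) := by
    rintro _ ⟨s, rfl⟩
    exact ⟨f s y, (h.assoc a s y).symm⟩
  have := hm.closure (h.contR y) hx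
  rw [heq] at this
  exact this

/-- Structure of a bounded row of an idempotent. -/
lemma Nice.bounded_idem (h : Nice f) (np : NP f) {e P Q : ℝ} (he : f e e = e)
    (hb : ∀ y, P ≤ f e y ∧ f e y ≤ Q) :
    ∃ p q, p < q ∧ (∀ y, f e y = y ↔ p ≤ y ∧ y ≤ q) ∧ (∀ y, p ≤ f e y ∧ f e y ≤ q) ∧
      ((e = p ∧ ∀ x y, p < x → p < f x y ∧ f x y < q) ∨
       (e = q ∧ ∀ x y, x < q → p < f x y ∧ f x y < q)) := by
  obtain ⟨p, q, hpq, -, -, hcl, hstrip⟩ := h.row_closure hb
  have hfix : ∀ y, f e (f e y) = f e y := fun y => by rw [← h.assoc, he]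
  have hcls : closure (range (f e)) ⊆ {y | f e y = y} :=
    closure_minimal (by rintro _ ⟨y, rfl⟩; exact hfix y)
      (isClosed_eq (h.contL e) continuous_id)
  have hin : ∀ y, p ≤ f e y ∧ f e y ≤ q := fun y => by
    have : f e y ∈ closure (range (f e)) := subset_closure ⟨y, rfl⟩
    rw [hcl] at this
    exact this
  have hiff : ∀ y, f e y = y ↔ p ≤ y ∧ y ≤ q := by
    intro y
    constructor
    · intro hy
      have := hin y
      rwa [hy] at this
    · intro hy
      have : y ∈ closure (range (f e)) := by rw [hcl]; exact hy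
      exact hcls this
  have hpq' : p < q := by
    rcases lt_or_eq_of_le hpq with h1 | h1
    · exact h1
    · exfalso
      exact np.row e p (fun y => le_antisymm (by rw [h1]; exact (hin y).2) (hin y).1)
  have hep : f e p = p := (hiff p).2 ⟨le_rfl, hpq⟩
  have heq : f e q = q := (hiff q).2 ⟨hpq, le_rfl⟩
  have hee : p ≤ e ∧ e ≤ q := (hiff e).1 he
  have o1 : IsOpen {z : ℝ × ℝ | z.1 < q} := isOpen_lt continuous_fst continuous_const
  have o2 : IsOpen {z : ℝ × ℝ | p < z.1} := isOpen_lt continuous_const continuous_fst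
  -- upper side
  have U : (e = q ∧ ∀ x y, x < q → f x y < q) ∨ (e = p ∧ ∀ x y, p < x → f x y < q) := by
    rcases h.side (a := e) (c := q) (fun y => (hin y).2) with s | s
    · left
      have hs : ∀ z ∈ {z : ℝ × ℝ | z.1 < q}, f z.1 z.2 ≤ q := by
        rintro ⟨x, y⟩ hx
        simp only [mem_ofPred_eq] at hx
        rcases le_total x e with hxe | hxe
        · exact s x y hxe
        · exact (hstrip x (hee.1.trans hxe) hx.le y).2
      have hst : ∀ x y, x < q → f x y < q := fun x y hx => h.strict_hi o1 hs (x, y) hx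
      refine ⟨?_, hst⟩
      by_contra hne
      have := hst e q (lt_of_le_of_ne hee.2 hne)
      linarith
    · right
      have hs : ∀ z ∈ {z : ℝ × ℝ | p < z.1}, f z.1 z.2 ≤ q := by
        rintro ⟨x, y⟩ hx
        simp only [mem_ofPred_eq] at hx
        rcases le_total e x with hxe | hxe
        · exact s x y hxe
        · exact (hstrip x hx.le (hxe.trans hee.2) y).2
      have hst : ∀ x y, p < x → f x y < q := fun x y hx => h.strict_hi o2 hs (x, y) hx
      refine ⟨?_, hst⟩
      by_contra hne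
      have := hst e q (lt_of_le_of_ne hee.1 (Ne.symm hne))
      linarith
  have L : (e = q ∧ ∀ x y, x < q → p < f x y) ∨ (e = p ∧ ∀ x y, p < x → p < f x y) := by
    rcases h.side' (a := e) (c := p) (fun y => (hin y).1) with s | s
    · left
      have hs : ∀ z ∈ {z : ℝ × ℝ | z.1 < q}, p ≤ f z.1 z.2 := by
        rintro ⟨x, y⟩ hx
        simp only [mem_ofPred_eq] at hx
        rcases le_total x e with hxe | hxe
        · exact s x y hxe
        · exact (hstrip x (hee.1.trans hxe) hx.le y).1
      have hst : ∀ x y, x < q → p < f x y := fun x y hx => h.strict_lo o1 hs (x, y) hx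
      refine ⟨?_, hst⟩
      by_contra hne
      have := hst e p (lt_of_le_of_ne hee.2 hne)
      linarith
    · right
      have hs : ∀ z ∈ {z : ℝ × ℝ | p < z.1}, p ≤ f z.1 z.2 := by
        rintro ⟨x, y⟩ hx
        simp only [mem_ofPred_eq] at hx
        rcases le_total e x with hxe | hxe
        · exact s x y hxe
        · exact (hstrip x hx.le (hxe.trans hee.2) y).1
      have hst : ∀ x y, p < x → p < f x y := fun x y hx => h.strict_lo o2 hs (x, y) hx
      refine ⟨?_, hst⟩
      by_contra hne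
      have := hst e p (lt_of_le_of_ne hee.1 (Ne.symm hne))
      linarith
  refine ⟨p, q, hpq', hiff, hin, ?_⟩
  rcases U with ⟨u1, u2⟩ | ⟨u1, u2⟩ <;> rcases L with ⟨l1, l2⟩ | ⟨l1, l2⟩
  · right
    exact ⟨u1, fun x y hx => ⟨l2 x y hx, u2 x y hx⟩⟩
  · exfalso
    linarith
  · exfalso
    linarith
  · left
    exact ⟨u1, fun x y hx => ⟨l2 x y hx, u2 x y hx⟩⟩

/-- There is no idempotent whose row is a compact interval with the idempotent as left end. -/
lemma Nice.no_left (h : Nice f) (np : NP f) {e q : ℝ} (he : f e e = e) (heq : e < q)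
    (hfe : ∀ y, f e y = y ↔ e ≤ y ∧ y ≤ q) (hre : ∀ y, e ≤ f e y ∧ f e y ≤ q)
    (hst : ∀ x y, e < x → e < f x y ∧ f x y < q) : False := by
  -- largest idempotent in the interval
  have hcompact : IsCompact {x : ℝ | x ∈ Icc e q ∧ f x x = x} := by
    have hcl : IsClosed {x : ℝ | f x x = x} :=
      isClosed_eq (h.cont.comp (by fun_prop : Continuous fun x : ℝ => (x, x))) continuous_id
    exact isCompact_Icc.inter_right hcl
  obtain ⟨m, ⟨⟨hm1, hm2⟩, hmm⟩, hmax⟩ :=
    hcompact.exists_isGreatest ⟨e, ⟨le_rfl, heq.le⟩, he⟩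
  have hmax' : ∀ x, e ≤ x → x ≤ q → f x x = x → x ≤ m := fun x h1 h2 h3 =>
    hmax ⟨⟨h1, h2⟩, h3⟩
  have hbm : ∀ y, e ≤ f m y ∧ f m y ≤ q := by
    intro y
    rcases lt_or_eq_of_le hm1 with h1 | h1
    · have := hst m y h1
      exact ⟨this.1.le, this.2.le⟩
    · rw [← h1]; exact hre y
  obtain ⟨p', q', hpq', hfix, hin, hty⟩ := h.bounded_idem np hmm hbm
  have hleft : m = p' ∧ ∀ x y, p' < x → p' < f x y ∧ f x y < q' := by
    rcases hty with t | ⟨t1, t2⟩
    · exact t
    · exfalso
      rcases lt_or_eq_of_le hm1 with h1 | h1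
      · have h2 := (t2 e q (by linarith)).2
        have h3 := (hfe q).2 ⟨heq.le, le_rfl⟩
        linarith
      · have h3 := (hfe q).2 ⟨heq.le, le_rfl⟩
        have h4 := (hfix q).1 (by rw [← h1]; exact h3)
        linarith
  obtain ⟨hmp, hst'⟩ := hleft
  subst hmp
  have hq'q : q' ≤ q := by
    have h3 := (hfix q').2 ⟨hpq'.le, le_rfl⟩
    have := (hbm q').2
    linarith
  -- fixed point of the row of q'
  obtain ⟨w, hw1, hw2, hw⟩ : ∃ w, m ≤ w ∧ w ≤ q' ∧ w - f q' w = 0 := by
    refine ivt_Icc (g := fun w => w - f q' w) (continuous_id.sub (h.contL q')) hpq'.le ?_ ?_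
    · have := (hst' q' m hpq').1
      linarith
    · have := (hst' q' q' hpq').2
      linarith
  have hw' : f q' w = w := by linarith
  have hroww : ∀ y, m ≤ f w y ∧ f w y ≤ q' := by
    intro y
    have h1 : f m w = w := (hfix w).2 ⟨hw1, hw2⟩
    have h2 := hin (f w y)
    rw [← h.assoc, h1] at h2
    exact h2
  obtain ⟨p2, q2, h21, h22, h23, hcl2, hstrip2⟩ := h.row_closure hroww
  obtain ⟨i, hi1, hi2, hi⟩ := h.exists_idem h21 (fun x hx1 hx2 => hstrip2 x hx1 hx2 x)
  have him : i = m := by
    apply le_antisymm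
    · exact hmax' i (by linarith) (by linarith) hi
    · linarith
  have hmem : m ∈ closure (range (f w)) := by
    rw [hcl2]
    exact ⟨by linarith, by linarith⟩
  have hsub : closure (range (f w)) ⊆ {t | f q' t = t} := by
    refine closure_minimal ?_ (isClosed_eq (h.contL q') continuous_id)
    rintro _ ⟨s, rfl⟩
    show f q' (f w s) = f w s
    rw [← h.assoc, hw']
  have h1 : f q' m = m := hsub hmem
  have h2 := (hst' q' m hpq').1
  linarith

/-- Rows are unbounded. -/
lemma Nice.row_unbdd (h : Nice f) (np : NP f) {a P Q : ℝ} (ha : ∀ y, P ≤ f a y ∧ f a y ≤ Q) :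
    False := by
  obtain ⟨p, q, hpq, hP, hQ, hcl, hstrip⟩ := h.row_closure ha
  obtain ⟨e, he1, he2, he⟩ := h.exists_idem hpq (fun x hx1 hx2 => hstrip x hx1 hx2 x)
  obtain ⟨p', q', hpq', hfix, hin, hty⟩ := h.bounded_idem np he (hstrip e he1 he2)
  rcases hty with ⟨t1, t2⟩ | ⟨t1, t2⟩
  · subst t1
    exact h.no_left np he hpq' hfix hin t2
  · subst t1
    refine h.neg.no_left np.neg (e := -e) (q := -p') (by simp [he]) (by linarith) ?_ ?_ ?_
    · intro y
      have := hfix (-y)
      constructor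
      · intro hy
        simp only [neg_neg] at hy
        have h3 := this.1 (by linarith)
        constructor <;> linarith
      · rintro ⟨h1, h2⟩
        have h3 := this.2 ⟨by linarith, by linarith⟩
        simp only [neg_neg]
        linarith
    · intro y
      have := hin (-y)
      simp only [neg_neg]
      constructor <;> linarith
    · intro x y hx
      have := t2 (-x) (-y) (by linarith)
      constructor <;> linarith

lemma Nice.row_low (h : Nice f) (np : NP f) {a c : ℝ} (ha : ∀ y, f a y ≤ c) (N : ℝ) :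
    ∃ y, f a y < N := by
  by_contra hcon
  push Not at hcon
  exact h.row_unbdd np (fun y => ⟨hcon y, ha y⟩)

lemma Nice.row_high (h : Nice f) (np : NP f) {a c : ℝ} (ha : ∀ y, c ≤ f a y) (N : ℝ) :
    ∃ y, N < f a y := by
  by_contra hcon
  push Not at hcon
  exact h.row_unbdd np (fun y => ⟨ha y, hcon y⟩)

end Pool.Agent.Helper268.Assoc
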