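import Pool.Agent.Helper268.Assoc1

set_option autoImplicit false

open Set Filter Topology

namespace Pool.Agent.Helper268.Assoc

variable {f : ℝ → ℝ → ℝ}

lemma Nice.col_low (h : Nice f) (np : NP f) {b c : ℝ} (hb : ∀ x, f x b ≤ c) (N : ℝ) :
    ∃ x, f x b < N := h.op.row_low np.op hb N

/-- The exceptional configuration: a row bounded above by `c0` and all rows to its right
bounded above by `c0`. -/
lemma Nice.no_bad (h : Nice f) (np : NP f) {a c0 : ℝ} (hlub : IsLUB (range (f a)) c0)
    (hR : ∀ x y, a ≤ x → f x y ≤ c0) : False := by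
  have ha : ∀ y, f a y ≤ c0 := fun y => hlub.1 ⟨y, rfl⟩
  -- step 1
  have h1 : ∀ t, t < c0 → ∀ y, f t y ≤ c0 := by
    intro t ht y
    obtain ⟨y1, hy1⟩ := h.row_low np ha t
    obtain ⟨_, ⟨y2, rfl⟩, hy2⟩ := (lt_isLUB_iff hlub).1 ht
    obtain ⟨s, hs⟩ := ivt (h.contL a) hy1.le hy2.le
    rw [← hs, h.assoc]
    exact ha _
  have h2 : ∀ x y, c0 < f x y → c0 ≤ x ∧ x < a := by
    intro x y hxy
    constructor
    · by_contra hcon
      push Not at hcon
      have := h1 x hcon y
      linarith
    · by_contra hcon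
      push Not at hcon
      have := hR x y hcon
      linarith
  -- columns bounded above
  have h3 : ∀ y, ∃ C, ∀ x, f x y ≤ C := by
    intro y
    obtain ⟨D, hD⟩ := (isCompact_Icc (a := c0) (b := a)).bddAbove_image (h.contR y).continuousOn
    refine ⟨max c0 D, fun x => ?_⟩
    by_cases hx : c0 < f x y
    · have hx' := h2 x y hx
      have : f x y ≤ D := hD ⟨x, ⟨hx'.1, hx'.2.le⟩, rfl⟩
      exact this.trans (le_max_right _ _)
    · push Not at hx
      exact hx.trans (le_max_left _ _)
  have hbdd : ∀ y, BddAbove (range fun x => f x y) := fun y => by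
    obtain ⟨C, hC⟩ := h3 y
    exact ⟨C, by rintro _ ⟨x, rfl⟩; exact hC x⟩
  have hne : ∀ y, (range fun x => f x y).Nonempty := fun y => ⟨_, 0, rfl⟩
  let M : ℝ → ℝ := fun y => sSup (range fun x => f x y)
  have hM : ∀ x y, f x y ≤ M y := fun x y => le_csSup (hbdd y) ⟨x, rfl⟩
  have hMle : ∀ y c, (∀ x, f x y ≤ c) → M y ≤ c := fun y c hc =>
    csSup_le (hne y) (by rintro _ ⟨x, rfl⟩; exact hc x)
  have hMlt : ∀ y c, c < M y → ∃ x, c < f x y := fun y c hc => by
    obtain ⟨_, ⟨x, rfl⟩, hx⟩ := exists_lt_of_lt_csSup (hne y) hc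
    exact ⟨x, hx⟩
  -- left ideal property
  have hid : ∀ y t, t < M y → ∀ x, f x t ≤ M y := by
    intro y t ht x
    obtain ⟨x1, hx1⟩ := h.col_low np (hM · y) t
    obtain ⟨x2, hx2⟩ := hMlt y t ht
    obtain ⟨s, hs⟩ := ivt (h.contR y) hx1.le hx2.le
    rw [← hs, ← h.assoc]
    exact hM _ _
  -- step 4
  have h4 : ∀ y y' x, y' ≤ y → f x y' ≤ M y := by
    intro y
    rcases h.op.side (a := y) (c := M y) (hM · y) with s | s
    · intro y' x hy
      exact s y' x hy
    · exfalso
      obtain ⟨D, hD⟩ := ((isCompact_Icc (a := c0) (b := a)).prod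
        (isCompact_Icc (a := M y) (b := y))).bddAbove_image h.cont.continuousOn
      obtain ⟨u, v, huv⟩ := h.surj (max (max c0 (M y)) D + 1)
      have b1 : c0 < f u v := by
        rw [huv]
        have := le_max_left (max c0 (M y)) D
        have := le_max_left c0 (M y)
        linarith
      have b2 : M y < f u v := by
        rw [huv]
        have := le_max_left (max c0 (M y)) D
        have := le_max_right c0 (M y)
        linarith
      have b3 : D < f u v := by
        rw [huv]
        have := le_max_right (max c0 (M y)) D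
        linarith
      have c1 := h2 u v b1
      have c2 : M y ≤ v := by
        by_contra hcon
        push Not at hcon
        have := hid y v hcon u
        linarith
      have c3 : v ≤ y := by
        by_contra hcon
        push Not at hcon
        have : f u v ≤ M y := s v u hcon.le
        linarith
      have : f u v ≤ D := hD ⟨(u, v), ⟨⟨c1.1, c1.2.le⟩, ⟨c2, c3⟩⟩, rfl⟩
      linarith
  -- maxima are attained
  have hatt : ∀ y, c0 < M y → ∃ u, f u y = M y := by
    intro y hy
    obtain ⟨z, hz⟩ := hMlt y c0 hy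
    have hz' := h2 z y hz
    obtain ⟨u, hu, humax⟩ := (isCompact_Icc (a := c0) (b := a)).exists_isMaxOn
      ⟨z, hz'.1, hz'.2.le⟩ (h.contR y).continuousOn
    refine ⟨u, le_antisymm (hM _ _) (hMle y _ fun x => ?_)⟩
    by_cases hx : c0 < f x y
    · have hx' := h2 x y hx
      exact humax ⟨hx'.1, hx'.2.le⟩
    · push Not at hx
      have : f z y ≤ f u y := humax ⟨hz'.1, hz'.2.le⟩
      linarith
  -- step 5: fixed values of M
  have h5 : ∀ y, c0 < M y → M (M y) = M y := by
    intro y hy
    apply le_antisymm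
    · apply hMle
      intro z
      have hcl : IsClosed {t : ℝ | f z t ≤ M y} := isClosed_le (h.contL z) continuous_const
      have hsub : Iio (M y) ⊆ {t : ℝ | f z t ≤ M y} := fun t ht => hid y t ht z
      have := hcl.closure_subset_iff.2 hsub
      rw [closure_Iio] at this
      exact this (mem_Iic.2 le_rfl)
    · obtain ⟨u, hu⟩ := hatt y hy
      obtain ⟨p, q, hpq⟩ := h.surj u
      have e1 : f p (f q y) = M y := by rw [← h.assoc, hpq, hu]
      have e2 : f q y ≤ M y := hM _ _
      have := h4 (M y) (f q y) p e2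
      linarith
  -- step 6,7: partial left identities
  have h7 : ∀ N : ℝ, ∃ e, c0 ≤ e ∧ e ≤ a ∧ ∀ y, y ≤ N → f e y = y := by
    intro N
    obtain ⟨p, q, hpq⟩ := h.surj (max (max c0 a) N + 1)
    have b1 : c0 < M q := by
      have := hM p q
      rw [hpq] at this
      have := le_max_left (max c0 a) N
      have := le_max_left c0 a
      linarith
    have b2 : a < M q := by
      have := hM p q
      rw [hpq] at this
      have := le_max_left (max c0 a) N
      have := le_max_right c0 a
      linarith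
    have b3 : N < M q := by
      have := hM p q
      rw [hpq] at this
      have := le_max_right (max c0 a) N
      linarith
    set x := M q with hx
    have hMx : M x = x := h5 q b1
    have hne' : {u : ℝ | f u x = x}.Nonempty := by
      obtain ⟨u, hu⟩ := hatt x (by rw [hMx]; exact b1)
      exact ⟨u, by rw [mem_ofPred_eq, hu, hMx]⟩
    have hsubI : {u : ℝ | f u x = x} ⊆ Icc c0 a := by
      intro u hu
      have hu' : f u x = x := hu
      have := h2 u x (by rw [hu']; exact b1)
      exact ⟨this.1, this.2.le⟩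
    have hcomp : IsCompact {u : ℝ | f u x = x} :=
      isCompact_Icc.of_isClosed_subset (isClosed_eq (h.contR x) continuous_const) hsubI
    obtain ⟨e, he, hee⟩ := @exists_idempotent_in_compact_subsemigroup ℝ
      { mul := f, mul_assoc := h.assoc } _ _ (fun r => h.contR r) {u : ℝ | f u x = x} hne' hcomp
      (by
        intro u hu v hv
        have hu' : f u x = x := hu
        have hv' : f v x = x := hv
        show f (f u v) x = x
        rw [h.assoc, hv', hu'])
    have hee' : f e e = e := hee
    have hex : f e x = x := he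
    refine ⟨e, (hsubI he).1, (hsubI he).2, ?_⟩
    intro y hy
    obtain ⟨s, hs⟩ := h.row_low np (a := x) (fun y => hR x y b2.le) y
    have e1 : f e (f x s) = f x s := by rw [← h.assoc, hex]
    obtain ⟨t, ht⟩ := ivt (h.contL e) (u := f x s) (v := x) (t := y) (by rw [e1]; exact hs.le)
      (by rw [hex]; linarith)
    rw [← ht, ← h.assoc, hee']
  -- step 8: a left identity
  obtain ⟨e, hce, hea, hid_e⟩ : ∃ e, c0 ≤ e ∧ e ≤ a ∧ ∀ y, f e y = y := by
    let K : ℕ → Set ℝ := fun n => {u | u ∈ Icc c0 a ∧ ∀ y, y ≤ (n : ℝ) → f u y = y}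
    have hKcl : ∀ n, IsClosed (K n) := by
      intro n
      have : K n = Icc c0 a ∩ ⋂ (y : ℝ) (_ : y ≤ (n : ℝ)), {u | f u y = y} := by
        ext u
        simp [K]
      rw [this]
      exact isClosed_Icc.inter (isClosed_iInter fun y => isClosed_iInter fun _ =>
        isClosed_eq (h.contR y) continuous_const)
    have hKc : IsCompact (K 0) :=
      isCompact_Icc.of_isClosed_subset (hKcl 0) (fun u hu => hu.1)
    have hKne : ∀ n, (K n).Nonempty := by
      intro n
      obtain ⟨e, e1, e2, e3⟩ := h7 n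
      exact ⟨e, ⟨e1, e2⟩, e3⟩
    have hKd : ∀ n, K (n + 1) ⊆ K n := by
      intro n u hu
      refine ⟨hu.1, fun y hy => hu.2 y ?_⟩
      push_cast
      linarith
    obtain ⟨e, he⟩ := IsCompact.nonempty_iInter_of_sequence_nonempty_isCompact_isClosed K hKd
      hKne hKc hKcl
    rw [mem_iInter] at he
    refine ⟨e, (he 0).1.1, (he 0).1.2, fun y => ?_⟩
    obtain ⟨n, hn⟩ := exists_nat_ge y
    exact (he n).2 y hn
  -- step 9
  set δ := M e with hδ
  have heδ : e ≤ δ := by
    have := hM e e
    rwa [hid_e] at this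
  have hfixcol : ∀ x, f (f x e) e = f x e := fun x => by rw [h.assoc, hid_e]
  have hδe : f δ e = δ := by
    have hcl : IsClosed {x : ℝ | f x e = x} := isClosed_eq (h.contR e) continuous_id
    have hset : (range fun x => f x e) = {x : ℝ | f x e = x} := by
      ext x
      constructor
      · rintro ⟨y, rfl⟩
        exact hfixcol y
      · intro hx
        exact ⟨x, hx⟩
    have := IsClosed.csSup_mem (s := range fun x => f x e) (by rw [hset]; exact hcl) (hne e)
      (hbdd e)
    rw [hset] at this
    have h9 : sSup {x : ℝ | f x e = x} = δ := by rw [← hset]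
    rw [h9] at this
    exact this
  have hMδ : ∀ x, f x δ ≤ δ := by
    intro z
    have hcl : IsClosed {t : ℝ | f z t ≤ δ} := isClosed_le (h.contL z) continuous_const
    have hsub : Iio δ ⊆ {t : ℝ | f z t ≤ δ} := fun t ht => hid e t ht z
    have := hcl.closure_subset_iff.2 hsub
    rw [closure_Iio] at this
    exact this (mem_Iic.2 le_rfl)
  have hMδ' : M δ ≤ δ := hMle δ δ hMδ
  have hstrict : ∀ x y, y < δ → f x y < δ := by
    intro x y hy
    have ob1 : IsOpen {p : ℝ × ℝ | p.2 < δ} := isOpen_lt continuous_snd continuous_const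
    exact h.strict_hi ob1 (c := δ) (fun p hp => (h4 δ p.2 p.1 (le_of_lt hp)).trans hMδ') (x, y) hy
  -- step 10
  have h10 : ∀ x' y1, δ < f x' y1 → f x' δ = δ := by
    intro x' y1 hy1
    by_cases hex : ∃ y2, f x' y2 < δ
    · obtain ⟨y2, hy2⟩ := hex
      obtain ⟨y, hy⟩ := ivt (h.contL x') hy2.le hy1.le
      have e1 : f x' (f y e) = δ := by rw [← h.assoc, hy, hδe]
      have e2 : f y e ≤ δ := hM _ _
      rcases lt_or_eq_of_le e2 with e3 | e3
      · have := hstrict x' _ e3
        linarith
      · rw [e3] at e1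
        exact e1
    · push Not at hex
      exact le_antisymm (hMδ x') (hex δ)
  -- step 11
  let X : Set ℝ := {x' | ∃ y, δ < f x' y}
  have heX : e ∈ X := ⟨δ + 1, by rw [hid_e]; linarith⟩
  have hXb : BddAbove X := by
    refine ⟨a, ?_⟩
    rintro x' ⟨y, hy⟩
    by_contra hcon
    push Not at hcon
    have := hR x' y hcon.le
    linarith
  set s := sSup X with hs
  have hsX : ∀ y, f s y ≤ δ := by
    intro y
    by_contra hcon
    push Not at hcon
    have hopen : IsOpen {x' : ℝ | δ < f x' y} := isOpen_lt continuous_const (h.contR y)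
    obtain ⟨ε, hε, hball⟩ := Metric.isOpen_iff.1 hopen s hcon
    have hm : s + ε / 2 ∈ {x' : ℝ | δ < f x' y} := by
      apply hball
      rw [Metric.mem_ball, Real.dist_eq, abs_of_pos (by linarith)]
      linarith
    have : s + ε / 2 ≤ s := le_csSup hXb ⟨y, hm⟩
    linarith
  have hsδ : f s δ = δ := by
    have hcl : IsClosed {x' : ℝ | f x' δ = δ} := isClosed_eq (h.contR δ) continuous_const
    have hsub : X ⊆ {x' : ℝ | f x' δ = δ} := by
      rintro x' ⟨y, hy⟩
      exact h10 x' y hy
    exact (hcl.closure_subset_iff.2 hsub) (csSup_mem_closure ⟨e, heX⟩ hXb)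
  obtain ⟨y2, hy2⟩ := h.row_low np hsX e
  obtain ⟨t, ht⟩ := ivt (h.contL s) (u := y2) (v := δ) (t := e) hy2.le (by rw [hsδ]; exact heδ)
  have : f e (δ + 1) ≤ δ := by
    rw [← ht, h.assoc]
    exact hsX _
  rw [hid_e] at this
  linarith

/-- Rows to the left of a row bounded above by `c` are bounded above by `c`. -/
lemma Nice.T1 (h : Nice f) (np : NP f) {a c : ℝ} (ha : ∀ y, f a y ≤ c) :
    ∀ x y, x ≤ a → f x y ≤ c := by
  by_contra hcon
  have hR : ∀ x y, a ≤ x → f x y ≤ c := (h.side ha).resolve_left hcon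
  push Not at hcon
  obtain ⟨x1, y1, hx1, h1⟩ := hcon
  have hbdd : BddAbove (range (f a)) := ⟨c, by rintro _ ⟨y, rfl⟩; exact ha y⟩
  have hlub : IsLUB (range (f a)) (sSup (range (f a))) := isLUB_csSup ⟨_, 0, rfl⟩ hbdd
  have hc0 : sSup (range (f a)) ≤ c := csSup_le ⟨_, 0, rfl⟩ (by rintro _ ⟨y, rfl⟩; exact ha y)
  rcases h.side (a := a) (c := sSup (range (f a))) (fun y => hlub.1 ⟨y, rfl⟩) with s | s
  · have := s x1 y1 hx1
    linarith
  · exact h.no_bad np hlub s

lemma Nice.T2 (h : Nice f) (np : NP f) {a c : ℝ} (ha : ∀ y, c ≤ f a y) :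
    ∀ x y, a ≤ x → c ≤ f x y := by
  intro x y hx
  have := h.neg.T1 np.neg (a := -a) (c := -c) (fun y => by
    have := ha (-y)
    simp only [neg_neg]
    linarith) (-x) (-y) (by linarith)
  simp only [neg_neg] at this
  linarith

lemma Nice.T3 (h : Nice f) (np : NP f) {b c : ℝ} (hb : ∀ x, f x b ≤ c) :
    ∀ x y, y ≤ b → f x y ≤ c := fun x y hy => h.op.T1 np.op hb y x hy

end Pool.Agent.Helper268.Assoc
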