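import Pool.Agent.Helper268.Assoc2

set_option autoImplicit false

open Set Filter Topology

namespace Pool.Agent.Helper268.Assoc

variable {f : ℝ → ℝ → ℝ}

/-- If `φ ∘ ψ = φ` and `ψ` moves every point upward then `φ` is bounded above. -/
lemma period_up {φ ψ : ℝ → ℝ} (hφ : Continuous φ) (hψ : Continuous ψ)
    (hc : ∀ w, φ (ψ w) = φ w) (hup : ∀ w, w < ψ w) : ∃ C, ∀ w, φ w ≤ C := by
  obtain ⟨D, hD⟩ := (isCompact_Icc (a := (0 : ℝ)) (b := ψ 0)).bddAbove_image hφ.continuousOn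
  refine ⟨D, fun w0 => ?_⟩
  have hBcl : IsClosed {w : ℝ | φ w = φ w0} := isClosed_eq hφ continuous_const
  have hAne : ∃ w, φ w = φ w0 ∧ 0 ≤ w := by
    by_contra hcon
    push Not at hcon
    have hbdd : BddAbove {w : ℝ | φ w = φ w0} := ⟨0, fun w hw => (hcon w hw).le⟩
    have hmem := hBcl.csSup_mem ⟨w0, rfl⟩ hbdd
    have h2 : ψ (sSup {w : ℝ | φ w = φ w0}) ∈ {w : ℝ | φ w = φ w0} := by
      show φ (ψ _) = φ w0
      rw [hc]
      exact hmem
    have h3 := le_csSup hbdd h2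
    have h4 := hup (sSup {w : ℝ | φ w = φ w0})
    linarith
  obtain ⟨w1, hw1, hw1'⟩ := hAne
  have hAcl : IsClosed {w : ℝ | φ w = φ w0 ∧ 0 ≤ w} :=
    hBcl.inter (isClosed_le continuous_const continuous_id)
  have hAb : BddBelow {w : ℝ | φ w = φ w0 ∧ 0 ≤ w} := ⟨0, fun w hw => hw.2⟩
  have hs := hAcl.csInf_mem ⟨w1, hw1, hw1'⟩ hAb
  set s := sInf {w : ℝ | φ w = φ w0 ∧ 0 ≤ w} with hsdef
  obtain ⟨hs1, hs2⟩ := hs
  rcases le_or_gt s (ψ 0) with h1 | h1
  · have : φ s ≤ D := hD ⟨s, ⟨hs2, h1⟩, rfl⟩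
    rw [hs1] at this
    exact this
  · exfalso
    obtain ⟨w', hw'1, hw'2, hw'3⟩ := ivt_Icc hψ hs2 h1.le (hup s).le
    have h5 : φ w' = φ w0 := by rw [← hs1, ← hw'3, hc]
    have h6 : s ≤ w' := csInf_le hAb ⟨h5, hw'1⟩
    have h7 : w' = s := le_antisymm hw'2 h6
    have h8 := hup s
    rw [h7] at hw'3
    linarith

/-- If `φ ∘ ψ = φ` and `ψ` has no fixed point then `φ` is bounded above. -/
lemma period {φ ψ : ℝ → ℝ} (hφ : Continuous φ) (hψ : Continuous ψ)
    (hc : ∀ w, φ (ψ w) = φ w) (hup : ∀ w, ψ w ≠ w) : ∃ C, ∀ w, φ w ≤ C := by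
  by_cases h1 : ∀ w, w < ψ w
  · exact period_up hφ hψ hc h1
  · push Not at h1
    obtain ⟨w1, hw1⟩ := h1
    have h2 : ∀ w, ψ w < w := by
      by_contra hcon
      push Not at hcon
      obtain ⟨w2, hw2⟩ := hcon
      obtain ⟨s, hs⟩ := ivt (g := fun w => ψ w - w) (hψ.sub continuous_id) (u := w1) (v := w2)
        (t := 0) (by linarith) (by linarith)
      exact hup s (by linarith)
    obtain ⟨C, hC⟩ := period_up (φ := fun w => φ (-w)) (ψ := fun w => -ψ (-w))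
      (hφ.comp continuous_neg) (hψ.comp continuous_neg).neg
      (fun w => by simp only [neg_neg]; exact hc (-w))
      (fun w => by have := h2 (-w); linarith)
    exact ⟨C, fun w => by have := hC (-w); simpa using this⟩

lemma period_low {φ ψ : ℝ → ℝ} (hφ : Continuous φ) (hψ : Continuous ψ)
    (hc : ∀ w, φ (ψ w) = φ w) (hup : ∀ w, ψ w ≠ w) : ∃ C, ∀ w, C ≤ φ w := by
  obtain ⟨C, hC⟩ := period (φ := fun w => -φ w) hφ.neg hψ (fun w => by simp only [hc]) hup
  exact ⟨-C, fun w => by have := hC w; linarith⟩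

/-- If `φ ∘ ψ = φ`, `ψ` fixes `w0` and moves all larger points upward then `φ` is constant
on `[w0, ∞)`. -/
lemma period_const {φ ψ : ℝ → ℝ} (hφ : Continuous φ) (hψ : Continuous ψ)
    (hc : ∀ w, φ (ψ w) = φ w) {w0 : ℝ} (hw0 : ψ w0 = w0) (hup : ∀ w, w0 < w → w < ψ w) :
    ∀ y, w0 ≤ y → φ y = φ w0 := by
  intro y hy
  have hAcl : IsClosed {w : ℝ | φ w = φ y ∧ w0 ≤ w} :=
    (isClosed_eq hφ continuous_const).inter (isClosed_le continuous_const continuous_id)
  have hAb : BddBelow {w : ℝ | φ w = φ y ∧ w0 ≤ w} := ⟨w0, fun w hw => hw.2⟩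
  have hs := hAcl.csInf_mem ⟨y, rfl, hy⟩ hAb
  set s := sInf {w : ℝ | φ w = φ y ∧ w0 ≤ w} with hsdef
  obtain ⟨hs1, hs2⟩ := hs
  rcases lt_or_eq_of_le hs2 with h1 | h1
  · exfalso
    obtain ⟨w', hw'1, hw'2, hw'3⟩ := ivt_Icc hψ hs2 (by rw [hw0]; exact hs2) (hup s h1).le
    have h5 : φ w' = φ y := by rw [← hs1, ← hw'3, hc]
    have h6 : s ≤ w' := csInf_le hAb ⟨h5, hw'1⟩
    have h7 : w' = s := le_antisymm hw'2 h6
    have h8 := hup s h1
    rw [h7] at hw'3
    linarith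
  · rw [h1, hs1]

/-- Case I: some row is bounded below. -/
lemma Nice.caseI (h : Nice f) (np : NP f) {a c : ℝ} (ha : ∀ y, c ≤ f a y) (N : ℝ) :
    ∃ x0, ∀ x y, x0 ≤ x → N ≤ f x y := by
  by_contra hcon
  push Not at hcon
  have hN : ∀ x, ∃ y, f x y < N := by
    intro x
    by_contra hx
    push Not at hx
    obtain ⟨x', y', h1, h2⟩ := hcon x
    have := h.T2 np hx x' y' h1
    linarith
  set x1 := max a N + 1 with hx1
  have ax1 : a ≤ x1 := by have := le_max_left a N; linarith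
  have Nx1 : N < x1 := by have := le_max_right a N; linarith
  have hlow : ∀ y, c ≤ f x1 y := fun y => h.T2 np ha x1 y ax1
  have hbdd : BddBelow (range (f x1)) := ⟨c, by rintro _ ⟨y, rfl⟩; exact hlow y⟩
  set ν := sInf (range (f x1)) with hν
  have hνle : ∀ y, ν ≤ f x1 y := fun y => csInf_le hbdd ⟨y, rfl⟩
  have hνlt : ∀ v, ν < v → ∃ y, f x1 y < v := by
    intro v hv
    obtain ⟨_, ⟨y, rfl⟩, hy⟩ := exists_lt_of_csInf_lt (s := range (f x1)) ⟨_, 0, rfl⟩ hv
    exact ⟨y, hy⟩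
  have hνN : ν < N := by
    obtain ⟨y, hy⟩ := hN x1
    exact (hνle y).trans_lt hy
  have hrow1 : ∀ t, ν < t → ∃ s, f x1 s = t := by
    intro t ht
    obtain ⟨y1, hy1⟩ := hνlt t ht
    obtain ⟨y2, hy2⟩ := h.row_high np hlow t
    exact ivt (h.contL x1) hy1.le hy2.le
  have hge : ∀ t y, ν < t → ν ≤ f t y := by
    intro t y ht
    obtain ⟨s, hs⟩ := hrow1 t ht
    rw [← hs, h.assoc]
    exact hνle _
  have hgt : ∀ t y, ν < t → ν < f t y := by
    intro t y ht
    have ob : IsOpen {p : ℝ × ℝ | ν < p.1} := isOpen_lt continuous_const continuous_fst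
    exact h.strict_lo ob (c := ν) (fun p hp => hge p.1 p.2 hp) (t, y) ht
  have hlt : ∀ t v, ν < t → ν < v → ∃ y, f t y < v := by
    intro t v ht hv
    by_contra hx
    push Not at hx
    set x2 := max t x1
    have hrow2 : ∀ y, v ≤ f x2 y := fun y => h.T2 np hx x2 y (le_max_left _ _)
    obtain ⟨y2, hy2⟩ := hN x2
    obtain ⟨y3, hy3⟩ := h.row_high np hrow2 x1
    obtain ⟨s, hs⟩ := ivt (h.contL x2) (u := y2) (t := x1) (by linarith) hy3.le
    obtain ⟨y, hy⟩ := hνlt v hv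
    have := hrow2 (f s y)
    rw [← h.assoc, hs] at this
    linarith
  have hrow : ∀ t v, ν < t → ν < v → ∃ s, f t s = v := by
    intro t v ht hv
    obtain ⟨y1, hy1⟩ := hlt t v ht hv
    obtain ⟨y2, hy2⟩ := h.row_high np (fun y => hge t y ht) v
    exact ivt (h.contL t) hy1.le hy2.le
  have hx1ν : ν < x1 := by linarith
  obtain ⟨s, hs⟩ := hrow (f x1 x1) x1 (hgt x1 x1 hx1ν) hx1ν
  rw [h.assoc] at hs
  set z := f x1 s with hz
  have hzν : ν < z := hgt x1 s hx1ν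
  have hper : ∀ w, f x1 (f z w) = f x1 w := fun w => by rw [← h.assoc, hs]
  obtain ⟨w, hw⟩ : ∃ w, f z w = w := by
    by_contra hno
    push Not at hno
    obtain ⟨C, hC⟩ := period (h.contL x1) (h.contL z) hper hno
    obtain ⟨y, hy⟩ := h.row_high np hlow C
    have := hC y
    linarith
  have hwν : ν < w := by rw [← hw]; exact hgt z w hzν
  obtain ⟨r, hr⟩ := hrow w z hwν hzν
  have hzz : f z z = z := by
    calc f z z = f z (f w r) := by rw [hr]
      _ = f (f z w) r := (h.assoc _ _ _).symm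
      _ = f w r := by rw [hw]
      _ = z := hr
  have hfix : ∀ v, ν < v → f z v = v := by
    intro v hv
    obtain ⟨y, hy⟩ := hrow z v hzν hv
    rw [← hy, ← h.assoc, hzz]
  have hcl : IsClosed {v : ℝ | f z v = v} := isClosed_eq (h.contL z) continuous_id
  have hsub : Ioi ν ⊆ {v : ℝ | f z v = v} := fun v hv => hfix v hv
  have := hcl.closure_subset_iff.2 hsub
  rw [closure_Ioi] at this
  have h1 : f z ν = ν := this (mem_Ici.2 le_rfl)
  have h2 := hgt z ν hzν
  linarith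

/-- Negated form of case I: some row is bounded above. -/
lemma Nice.caseI' (h : Nice f) (np : NP f) {a c : ℝ} (ha : ∀ y, f a y ≤ c) (N : ℝ) :
    ∃ x0, ∀ x y, x ≤ x0 → f x y ≤ N := by
  obtain ⟨x0, hx0⟩ := h.neg.caseI np.neg (a := -a) (c := -c) (fun y => by
    have := ha (-y)
    simp only [neg_neg]
    linarith) (-N)
  refine ⟨-x0, fun x y hx => ?_⟩
  have := hx0 (-x) (-y) (by linarith)
  simp only [neg_neg] at this
  linarith

end Pool.Agent.Helper268.Assoc
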