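import Pool.Agent.Helper268.Assoc3

set_option autoImplicit false

open Set Filter Topology

namespace Pool.Agent.Helper268.Assoc

variable {f : ℝ → ℝ → ℝ}

/-- The operation sends large pairs to large values. -/
def Q (f : ℝ → ℝ → ℝ) : Prop := ∀ N, ∃ K, ∀ x y, K ≤ x → K ≤ y → N ≤ f x y

lemma Q.op (h : Q f) : Q (fun x y => f y x) := fun N => by
  obtain ⟨K, hK⟩ := h N
  exact ⟨K, fun x y hx hy => hK y x hy hx⟩

lemma pos_of_ne {d : ℝ → ℝ} (hd : Continuous d) {e x : ℝ} (hex : e ≤ x)
    (hne : ∀ t, e ≤ t → d t ≠ 0) (he : 0 < d e) : 0 < d x := by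
  by_contra hcon
  push Not at hcon
  obtain ⟨s, hs1, hs2, hs3⟩ := ivt_Icc (g := fun t => -d t) hd.neg hex (t := 0)
    (by linarith) (by linarith)
  exact hne s hs1 (by linarith)

lemma strictMono_of_inj_pos {g : ℝ → ℝ} (hg : Continuous g) (hi : Function.Injective g)
    (h01 : 0 < g 1 - g 0) : StrictMono g := by
  rcases hg.strictMono_of_inj hi with h | h
  · exact h
  · have := h (zero_lt_one (α := ℝ))
    linarith

lemma Nice.case0 (h : Nice f) (np : NP f) (hlow : ∀ a N, ∃ y, f a y < N)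
    (hhigh : ∀ a N, ∃ y, N < f a y) (hcol : ∀ b N, ∃ x, f x b < N) : Q f := by
  have hrow : ∀ a t, ∃ s, f a s = t := by
    intro a t
    obtain ⟨y1, hy1⟩ := hlow a t
    obtain ⟨y2, hy2⟩ := hhigh a t
    exact ivt (h.contL a) hy1.le hy2.le
  obtain ⟨z, hz⟩ := hrow 0 0
  obtain ⟨w, hw⟩ : ∃ w, f z w = w := by
    by_contra hno
    push Not at hno
    obtain ⟨C, hC⟩ := period (h.contL 0) (h.contL z) (fun w => by rw [← h.assoc, hz]) hno
    obtain ⟨y, hy⟩ := hhigh 0 C
    have := hC y
    linarith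
  obtain ⟨r, hr⟩ := hrow w z
  have hzz : f z z = z := by
    calc f z z = f z (f w r) := by rw [hr]
      _ = f (f z w) r := (h.assoc _ _ _).symm
      _ = f w r := by rw [hw]
      _ = z := hr
  have hid : ∀ v, f z v = v := by
    intro v
    obtain ⟨y, hy⟩ := hrow z v
    rw [← hy, ← h.assoc, hzz]
  have hinj : ∀ x, Function.Injective (f x) := by
    intro x y1 y2 hy
    obtain ⟨x', hx'⟩ := hrow x z
    obtain ⟨s1, hs1⟩ := hrow x' y1
    obtain ⟨s2, hs2⟩ := hrow x' y2
    have e1 : f x y1 = s1 := by rw [← hs1, ← h.assoc, hx', hid]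
    have e2 : f x y2 = s2 := by rw [← hs2, ← h.assoc, hx', hid]
    rw [← hs1, ← hs2, ← e1, ← e2, hy]
  have hd : Continuous fun x => f x 1 - f x 0 := (h.contR 1).sub (h.contR 0)
  have hdne : ∀ x, f x 1 - f x 0 ≠ 0 := by
    intro x hx
    have : (1 : ℝ) = 0 := hinj x (by linarith)
    linarith
  have hdz : 0 < f z 1 - f z 0 := by rw [hid, hid]; norm_num
  have hdpos : ∀ x, 0 < f x 1 - f x 0 := by
    intro x
    rcases le_total z x with hzx | hzx
    · exact pos_of_ne hd hzx (fun t _ => hdne t) hdz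
    · have := pos_of_ne (d := fun t => f (-t) 1 - f (-t) 0) (hd.comp continuous_neg)
        (e := -z) (x := -x) (by linarith) (fun t _ => hdne _) (by simpa using hdz)
      simpa using this
  have hmono : ∀ x, StrictMono (f x) := fun x =>
    strictMono_of_inj_pos (h.contL x) (hinj x) (hdpos x)
  have hfixcol : ∀ x, f (f x z) z = f x z := fun x => by rw [h.assoc, hzz]
  by_cases hub : ∀ N, ∃ x, N < f x z
  · have hre : ∀ x, f x z = x := by
      intro x
      obtain ⟨x1, hx1⟩ := hcol z x
      obtain ⟨x2, hx2⟩ := hub x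
      obtain ⟨s, hs⟩ := ivt (h.contR z) hx1.le hx2.le
      rw [← hs, hfixcol]
    intro N
    refine ⟨max N z, fun x y hx hy => ?_⟩
    have h1 : f x z ≤ f x y := (hmono x).monotone ((le_max_right _ _).trans hy)
    rw [hre] at h1
    exact ((le_max_left _ _).trans hx).trans h1
  · exfalso
    push Not at hub
    obtain ⟨C, hC⟩ := hub
    have hbdd : BddAbove (range fun x => f x z) := ⟨C, by rintro _ ⟨x, rfl⟩; exact hC x⟩
    have hne : (range fun x => f x z).Nonempty := ⟨_, 0, rfl⟩
    set δ := sSup (range fun x => f x z) with hδ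
    have hle : ∀ x, f x z ≤ δ := fun x => le_csSup hbdd ⟨x, rfl⟩
    have hset : (range fun x => f x z) = {x : ℝ | f x z = x} := by
      ext x
      constructor
      · rintro ⟨y, rfl⟩
        exact hfixcol y
      · intro hx
        exact ⟨x, hx⟩
    have hδe : f δ z = δ := by
      have := IsClosed.csSup_mem (s := range fun x => f x z)
        (by rw [hset]; exact isClosed_eq (h.contR z) continuous_id) hne hbdd
      rw [hset] at this
      have h9 : sSup {x : ℝ | f x z = x} = δ := by rw [← hset]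
      rw [h9] at this
      exact this
    refine np.col δ δ (fun x => le_antisymm ?_ ?_)
    · calc f x δ = f x (f δ z) := by rw [hδe]
        _ = f (f x δ) z := (h.assoc _ _ _).symm
        _ ≤ δ := hle _
    · obtain ⟨y, hy⟩ := hrow x δ
      calc δ = f δ z := hδe.symm
        _ = f (f x y) z := by rw [hy]
        _ = f x (f y z) := h.assoc _ _ _
        _ ≤ f x δ := (hmono x).monotone (hle y)

/-- Case III.1. -/
structure Low (f : ℝ → ℝ → ℝ) : Prop where
  nice : Nice f
  np : NP f
  rlow : ∀ a N, ∃ y, f a y < N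
  clow : ∀ b N, ∃ x, f x b < N
  a1 : ∀ N, ∃ x0, ∀ x y, x ≤ x0 → f x y ≤ N
  a2 : ∀ N, ∃ y0, ∀ x y, y ≤ y0 → f x y ≤ N

lemma Low.op (T : Low f) : Low (fun x y => f y x) where
  nice := T.nice.op
  np := T.np.op
  rlow := T.clow
  clow := T.rlow
  a1 := fun N => by
    obtain ⟨x0, hx0⟩ := T.a2 N
    exact ⟨x0, fun x y hx => hx0 y x hx⟩
  a2 := fun N => by
    obtain ⟨x0, hx0⟩ := T.a1 N
    exact ⟨x0, fun x y hx => hx0 y x hx⟩

lemma Low.row_mem (T : Low f) {a t y : ℝ} (hy : t ≤ f a y) : ∃ s, f a s = t := by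
  obtain ⟨y1, hy1⟩ := T.rlow a t
  exact ivt (T.nice.contL a) hy1.le hy

lemma Low.sup_row (T : Low f) {a μ : ℝ} (hμ : IsLUB (range (f a)) μ) : ∀ y, f μ y ≤ μ := by
  intro y
  have hcl : IsClosed {t : ℝ | f t y ≤ μ} := isClosed_le (T.nice.contR y) continuous_const
  have hsub : Iio μ ⊆ {t : ℝ | f t y ≤ μ} := by
    intro t ht
    obtain ⟨_, ⟨y2, rfl⟩, hy2⟩ := (lt_isLUB_iff hμ).1 ht
    obtain ⟨s, hs⟩ := T.row_mem hy2.le
    show f t y ≤ μ
    rw [← hs, T.nice.assoc]
    exact hμ.1 ⟨_, rfl⟩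
  have := hcl.closure_subset_iff.2 hsub
  rw [closure_Iio] at this
  exact this (mem_Iic.2 le_rfl)

lemma lub_range {g : ℝ → ℝ} {c : ℝ} (hg : ∀ y, g y ≤ c) : IsLUB (range g) (sSup (range g)) :=
  isLUB_csSup ⟨_, 0, rfl⟩ ⟨c, by rintro _ ⟨y, rfl⟩; exact hg y⟩

lemma Low.no_defect (T : Low f) {a c : ℝ} (ha : ∀ y, f a y ≤ c) : a ≤ c := by
  by_contra hcon
  push Not at hcon
  have h := T.nice
  obtain ⟨p0, q0, hpq0⟩ := h.surj (a + 1)
  have H : ∀ q, q0 ≤ q → ∃ c', c' < q ∧ ∀ z, f q z ≤ c' := by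
    intro q hq
    obtain ⟨p1, hp1⟩ : ∃ p, a < f p q := by
      by_contra hno
      push Not at hno
      have := h.T3 T.np hno p0 q0 hq
      linarith
    obtain ⟨p, hp⟩ := T.op.row_mem (a := q) (t := a) (y := p1) hp1.le
    by_contra hno
    push Not at hno
    have hcl : IsClosed {t : ℝ | f p t ≤ c} := isClosed_le (h.contL p) continuous_const
    have hsub : Iio q ⊆ {t : ℝ | f p t ≤ c} := by
      intro t ht
      obtain ⟨z, hz⟩ := hno t ht
      obtain ⟨s, hs⟩ := T.row_mem hz.le
      show f p t ≤ c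
      rw [← hs, ← h.assoc, hp]
      exact ha s
    have := hcl.closure_subset_iff.2 hsub
    rw [closure_Iio] at this
    have h2 : f p q ≤ c := this (mem_Iic.2 le_rfl)
    linarith
  have H2 : ∀ q, q0 ≤ q → ∀ y, f q y ≤ q0 := by
    intro q hq y
    by_contra hno
    push Not at hno
    obtain ⟨c1, -, hc1⟩ := H q hq
    have hlub := lub_range hc1
    set μ := sSup (range (f q))
    have hμ : q0 ≤ μ := hno.le.trans (hlub.1 ⟨y, rfl⟩)
    obtain ⟨c', hc', hc''⟩ := H μ hμ
    have hT := h.T1 T.np hc''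
    have : μ ≤ c' := by
      refine hlub.2 ?_
      rintro _ ⟨y', rfl⟩
      obtain ⟨s1, s2, hs⟩ := h.surj y'
      rw [← hs, ← h.assoc]
      exact hT _ _ (hlub.1 ⟨s1, rfl⟩)
    linarith
  obtain ⟨u, v, huv⟩ := h.surj (q0 + 1)
  have := h.T1 T.np (H2 (max q0 u) (le_max_left _ _)) u v (le_max_right _ _)
  linarith

/-- A continuous function that is small at `-∞` and attains its values on `(-∞, b]` has a
maximum. -/
lemma exists_max {g : ℝ → ℝ} (hg : Continuous g) {y0 b : ℝ}
    (h1 : ∀ y, y ≤ y0 → g y ≤ g b) (h2 : ∀ y, ∃ y', y' ≤ b ∧ g y' = g y) :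
    ∃ m, ∀ y, g y ≤ g m := by
  obtain ⟨m, hm, hmax⟩ := (isCompact_Icc (a := min y0 b) (b := b)).exists_isMaxOn
    ⟨b, min_le_right _ _, le_rfl⟩ hg.continuousOn
  refine ⟨m, fun y => ?_⟩
  obtain ⟨y', hy'1, hy'2⟩ := h2 y
  rw [← hy'2]
  by_cases hc : min y0 b ≤ y'
  · exact hmax ⟨hc, hy'1⟩
  · push Not at hc
    have h3 := h1 y' (hc.le.trans (min_le_left _ _))
    have h4 : g b ≤ g m := hmax ⟨min_le_right _ _, le_rfl⟩
    linarith

lemma Low.exists_left_id (T : Low f) {a z : ℝ} (hz : f a z = a)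
    (hno : ∀ y, ∃ y', f a y < f a y') : ∃ e, ∀ y, f e y = y := by
  have h := T.nice
  have hEcl : IsClosed {z : ℝ | f a z = a} := isClosed_eq (h.contL a) continuous_const
  obtain ⟨y0, hy0⟩ := T.a2 (a - 1)
  have hEb : BddBelow {z : ℝ | f a z = a} := by
    refine ⟨y0, fun w hw => ?_⟩
    by_contra hc
    push Not at hc
    have h1 := hy0 a w hc.le
    have h2 : f a w = a := hw
    linarith
  have heE := hEcl.csInf_mem ⟨z, hz⟩ hEb
  set e := sInf {z : ℝ | f a z = a} with he
  have hae : f a e = a := heE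
  have hemin : ∀ w, f a w = a → e ≤ w := fun w hw => csInf_le hEb hw
  have hper : ∀ w, f a (f e w) = f a w := fun w => by rw [← h.assoc, hae]
  have hee1 : e ≤ f e e := hemin _ (by rw [hper, hae])
  have hee : f e e = e := by
    by_contra hne
    have hlt : e < f e e := lt_of_le_of_ne hee1 (Ne.symm hne)
    have hW : ∀ w, f e w = w → w < e := by
      intro w hw
      have h1 : ∀ y, f w y ≤ e := by
        intro y
        by_contra hc
        push Not at hc
        obtain ⟨s, hs⟩ := T.row_mem hc.le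
        apply hne
        calc f e e = f e (f w s) := by rw [hs]
          _ = f (f e w) s := (h.assoc _ _ _).symm
          _ = f w s := by rw [hw]
          _ = e := hs
      have h2 := T.no_defect h1
      rcases lt_or_eq_of_le h2 with h3 | h3
      · exact h3
      · exfalso
        rw [h3] at hw
        exact hne hw
    by_cases hex : ∃ w, f e w = w
    · obtain ⟨w1, hw1⟩ := hex
      have hWcl : IsClosed {w : ℝ | f e w = w} := isClosed_eq (h.contL e) continuous_id
      have hWb : BddAbove {w : ℝ | f e w = w} := ⟨e, fun w hw => (hW w hw).le⟩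
      have hmem := hWcl.csSup_mem ⟨w1, hw1⟩ hWb
      set w0 := sSup {w : ℝ | f e w = w} with hw0
      have hfw0 : f e w0 = w0 := hmem
      have hw0e : w0 < e := hW w0 hfw0
      have hup : ∀ y, w0 < y → y < f e y := by
        intro y hy
        by_contra hc
        push Not at hc
        have hcont : Continuous fun t => f e t - t := (h.contL e).sub continuous_id
        rcases le_total y e with hye | hye
        · obtain ⟨s, hs1, hs2, hs3⟩ := ivt_Icc hcont hye (t := 0) (by linarith) (by linarith)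
          have h5 : s ≤ w0 := le_csSup hWb (by show f e s = s; linarith)
          linarith
        · have hcont' : Continuous fun t => t - f e t := continuous_id.sub (h.contL e)
          obtain ⟨s, hs1, hs2, hs3⟩ := ivt_Icc hcont' hye (t := 0) (by linarith)
            (by linarith)
          have h5 : s ≤ w0 := le_csSup hWb (by show f e s = s; linarith)
          linarith
      have hconst := period_const (h.contL a) (h.contL e) hper hfw0 hup
      obtain ⟨y1, hy1⟩ := T.a2 (f a w0)
      obtain ⟨m, hm⟩ := exists_max (h.contL a) (y0 := y1) (b := w0) (fun y hy => hy1 a y hy)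
        (fun y => by
          rcases le_total y w0 with h6 | h6
          · exact ⟨y, h6, rfl⟩
          · exact ⟨w0, le_rfl, (hconst y h6).symm⟩)
      obtain ⟨y', hy'⟩ := hno m
      have := hm y'
      linarith
    · push Not at hex
      obtain ⟨C, hC⟩ := period_low (h.contL a) (h.contL e) hper hex
      obtain ⟨y, hy⟩ := T.rlow a C
      have := hC y
      linarith
  have hidem : ∀ y, f e (f e y) = f e y := fun y => by rw [← h.assoc, hee]
  by_cases hub : ∀ N, ∃ y, N < f e y
  · refine ⟨e, fun y => ?_⟩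
    obtain ⟨y2, hy2⟩ := hub y
    obtain ⟨s, hs⟩ := T.row_mem hy2.le
    rw [← hs, hidem]
  · exfalso
    push Not at hub
    obtain ⟨C, hC⟩ := hub
    have hlub := lub_range hC
    set δ := sSup (range (f e)) with hδ
    have hδe : f e δ = δ := by
      have hset : range (f e) = {x : ℝ | f e x = x} := by
        ext x
        constructor
        · rintro ⟨y, rfl⟩
          exact hidem y
        · intro hx
          exact ⟨x, hx⟩
      have := IsClosed.csSup_mem (s := range (f e))
        (by rw [hset]; exact isClosed_eq (h.contL e) continuous_id) ⟨_, 0, rfl⟩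
        ⟨C, by rintro _ ⟨y, rfl⟩; exact hC y⟩
      rw [hset] at this
      have h9 : sSup {x : ℝ | f e x = x} = δ := by rw [← hset]
      rw [h9] at this
      exact this
    obtain ⟨y1, hy1⟩ := T.a2 (f a δ)
    obtain ⟨m, hm⟩ := exists_max (h.contL a) (y0 := y1) (b := δ) (fun y hy => hy1 a y hy)
      (fun y => ⟨f e y, hlub.1 ⟨y, rfl⟩, hper y⟩)
    obtain ⟨y', hy'⟩ := hno m
    have := hm y'
    linarith

lemma Low.right_id (T : Low f) {e : ℝ} (he : ∀ y, f e y = y) : ∀ x, f x e = x := by
  have h := T.nice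
  have hfixcol : ∀ x, f (f x e) e = f x e := fun x => by rw [h.assoc, he]
  by_cases hub : ∀ N, ∃ x, N < f x e
  · intro x
    obtain ⟨x2, hx2⟩ := hub x
    obtain ⟨s, hs⟩ := T.op.row_mem (a := e) (t := x) (y := x2) hx2.le
    rw [← hs, hfixcol]
  · exfalso
    push Not at hub
    obtain ⟨C, hC⟩ := hub
    have hlub : IsLUB (range fun x => f x e) (sSup (range fun x => f x e)) := lub_range hC
    set δ := sSup (range fun x => f x e) with hδ
    have hle : ∀ x, f x e ≤ δ := fun x => hlub.1 ⟨x, rfl⟩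
    have hset : (range fun x => f x e) = {x : ℝ | f x e = x} := by
      ext x
      constructor
      · rintro ⟨y, rfl⟩
        exact hfixcol y
      · intro hx
        exact ⟨x, hx⟩
    have hδe : f δ e = δ := by
      have := IsClosed.csSup_mem (s := range fun x => f x e)
        (by rw [hset]; exact isClosed_eq (h.contR e) continuous_id) ⟨_, 0, rfl⟩
        ⟨C, by rintro _ ⟨y, rfl⟩; exact hC y⟩
      rw [hset] at this
      have h9 : sSup {x : ℝ | f x e = x} = δ := by rw [← hset]
      rw [h9] at this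
      exact this
    have heδ : e ≤ δ := by
      have := hle e
      rwa [he] at this
    have hMδ : ∀ x, f x δ ≤ δ := T.op.sup_row (a := e) hlub
    have hstrict : ∀ x y, y < δ → f x y < δ := by
      intro x y hy
      have ob1 : IsOpen {p : ℝ × ℝ | p.2 < δ} := isOpen_lt continuous_snd continuous_const
      exact h.strict_hi ob1 (c := δ) (fun p hp => h.T3 T.np hMδ p.1 p.2 (le_of_lt hp)) (x, y) hy
    let X : Set ℝ := {x' | ∃ y, δ < f x' y}
    have heX : e ∈ X := ⟨δ + 1, by rw [he]; linarith⟩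
    obtain ⟨x0, hx0⟩ := T.a1 δ
    have hXb : BddBelow X := by
      refine ⟨x0, ?_⟩
      rintro x' ⟨y, hy⟩
      by_contra hcon
      push Not at hcon
      have := hx0 x' y hcon.le
      linarith
    have hX : ∀ x', x' ∈ X → f x' δ = δ := by
      rintro x' ⟨y1, hy1⟩
      obtain ⟨y, hy⟩ := T.row_mem hy1.le
      have e1 : f x' (f y e) = δ := by rw [← h.assoc, hy, hδe]
      rcases lt_or_eq_of_le (hle y) with e3 | e3
      · have := hstrict x' _ e3
        linarith
      · rw [e3] at e1
        exact e1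
    set s := sInf X with hs
    have hsX : ∀ y, f s y ≤ δ := by
      intro y
      by_contra hcon
      push Not at hcon
      have hopen : IsOpen {x' : ℝ | δ < f x' y} := isOpen_lt continuous_const (h.contR y)
      obtain ⟨ε, hε, hball⟩ := Metric.isOpen_iff.1 hopen s hcon
      have hm : s - ε / 2 ∈ {x' : ℝ | δ < f x' y} := by
        apply hball
        rw [Metric.mem_ball, Real.dist_eq, abs_of_neg (by linarith)]
        linarith
      have : s ≤ s - ε / 2 := csInf_le hXb ⟨y, hm⟩
      linarith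
    have hsδ : f s δ = δ := by
      have hcl : IsClosed {x' : ℝ | f x' δ = δ} := isClosed_eq (h.contR δ) continuous_const
      exact (hcl.closure_subset_iff.2 hX) (csInf_mem_closure ⟨e, heX⟩ hXb)
    have hlub2 : IsLUB (range (f s)) δ :=
      ⟨by rintro _ ⟨y, rfl⟩; exact hsX y, fun b hb => hb ⟨δ, hsδ⟩⟩
    have := h.T1 T.np (T.sup_row hlub2) e (δ + 1) heδ
    rw [he] at this
    linarith

/-- The case when some row is unbounded above. -/
lemma Low.case5 (T : Low f) {a : ℝ} (ha : ∀ N, ∃ y, N < f a y) : Q f := by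
  have h := T.nice
  obtain ⟨y1, hy1⟩ := ha a
  obtain ⟨z, hz⟩ := T.row_mem hy1.le
  obtain ⟨e, he⟩ := T.exists_left_id hz (fun y => ha _)
  have hre := T.right_id he
  have hrow : ∀ x, e ≤ x → ∃ s, f x s = e := by
    intro x hx
    obtain ⟨y, hy⟩ : ∃ y, e < f x y := by
      by_contra hno
      push Not at hno
      have := h.T1 T.np hno e (e + 1) hx
      rw [he] at this
      linarith
    exact T.row_mem hy.le
  have hcol : ∀ x, e ≤ x → ∃ s, f s x = e := by
    intro x hx
    obtain ⟨y, hy⟩ : ∃ y, e < f y x := by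
      by_contra hno
      push Not at hno
      have := h.T3 T.np hno (e + 1) e hx
      rw [hre] at this
      linarith
    exact T.op.row_mem (a := x) (t := e) (y := y) hy.le
  have hinj : ∀ x, e ≤ x → Function.Injective (f x) := by
    intro x hx u v huv
    obtain ⟨s, hs⟩ := hcol x hx
    have e1 : f s (f x u) = u := by rw [← h.assoc, hs, he]
    have e2 : f s (f x v) = v := by rw [← h.assoc, hs, he]
    rw [← e1, ← e2, huv]
  have hd : Continuous fun x => f x 1 - f x 0 := (h.contR 1).sub (h.contR 0)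
  have hdpos : ∀ x, e ≤ x → 0 < f x 1 - f x 0 := by
    intro x hx
    refine pos_of_ne hd hx (fun t ht hx => ?_) (by rw [he, he]; norm_num)
    have : (1 : ℝ) = 0 := hinj t ht (by linarith)
    linarith
  intro N
  refine ⟨max N e, fun x y hx hy => ?_⟩
  have hx' : e ≤ x := (le_max_right _ _).trans hx
  have hm := (strictMono_of_inj_pos (h.contL x) (hinj x hx') (hdpos x hx')).monotone
    ((le_max_right _ _).trans hy)
  rw [hre] at hm
  exact ((le_max_left _ _).trans hx).trans hm

/-- When all rows are bounded above, the supremum of row `a` is `a`. -/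
lemma Low.row_self (T : Low f) (hrow : ∀ a, ∃ c, ∀ y, f a y ≤ c) (a : ℝ) :
    (∀ y, f a y ≤ a) ∧ ∀ t, t < a → ∃ y, t < f a y := by
  have h := T.nice
  obtain ⟨c, hc⟩ := hrow a
  have hlub := lub_range hc
  set μ := sSup (range (f a)) with hμ
  have haμ : a ≤ μ := T.no_defect (fun y => hlub.1 ⟨y, rfl⟩)
  have hlt : ∀ t, t < μ → ∃ y, t < f a y := by
    intro t ht
    obtain ⟨_, ⟨y2, rfl⟩, hy2⟩ := (lt_isLUB_iff hlub).1 ht
    exact ⟨y2, hy2⟩
  have hμa : μ = a := by
    by_contra hne
    have haμ' : a < μ := lt_of_le_of_ne haμ (Ne.symm hne)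
    obtain ⟨y, hy⟩ := hlt a haμ'
    obtain ⟨z, hz⟩ := T.row_mem hy.le
    have hst : ∀ y, f a y < μ := by
      intro y
      have ob : IsOpen {p : ℝ × ℝ | p.1 < μ} := isOpen_lt continuous_fst continuous_const
      exact h.strict_hi ob (c := μ)
        (fun p hp => h.T1 T.np (T.sup_row hlub) p.1 p.2 (le_of_lt hp)) (a, y) haμ'
    obtain ⟨e, he⟩ := T.exists_left_id hz (fun y => hlt _ (hst y))
    obtain ⟨c', hc'⟩ := hrow e
    have := hc' (c' + 1)
    rw [he] at this
    linarith
  constructor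
  · intro y
    have : f a y ≤ μ := hlub.1 ⟨y, rfl⟩
    rwa [hμa] at this
  · intro t ht
    exact hlt t (by rw [hμa]; exact ht)

lemma Low.row_mono (T : Low f) (hrow : ∀ a, ∃ c, ∀ y, f a y ≤ c) (x : ℝ) : Monotone (f x) := by
  intro y1 y2 h12
  rcases lt_or_eq_of_le h12 with h | h
  · by_contra hcon
    push Not at hcon
    obtain ⟨y, hy⟩ := (T.row_self hrow y2).2 y1 h
    obtain ⟨s, hs⟩ := T.row_mem hy.le
    have := (T.row_self hrow (f x y2)).1 s
    rw [T.nice.assoc, hs] at this
    linarith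
  · rw [h]

lemma Low.case6 (T : Low f) (hrow : ∀ a, ∃ c, ∀ y, f a y ≤ c)
    (hcol : ∀ b, ∃ c, ∀ x, f x b ≤ c) : Q f := by
  intro N
  obtain ⟨x0, y0, h0⟩ := T.nice.surj N
  refine ⟨max x0 y0, fun x y hx hy => ?_⟩
  have h1 : f x0 y0 ≤ f x0 y := T.row_mono hrow x0 ((le_max_right _ _).trans hy)
  have h2 : f x0 y ≤ f x y := T.op.row_mono hcol y ((le_max_left _ _).trans hx)
  rw [h0] at h1
  exact h1.trans h2

lemma Low.main (T : Low f) : Q f := by
  by_cases h1 : ∃ a, ∀ N, ∃ y, N < f a y
  · obtain ⟨a, ha⟩ := h1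
    exact T.case5 ha
  by_cases h2 : ∃ b, ∀ N, ∃ x, N < f x b
  · obtain ⟨b, hb⟩ := h2
    exact (T.op.case5 hb).op
  push Not at h1 h2
  exact T.case6 h1 h2

/-- A nice associative operation sends large pairs to large values. -/
theorem Nice.main (h : Nice f) : Q f := by
  by_cases hc : ∃ b c, ∀ x, f x b = c
  · obtain ⟨b, c, hbc⟩ := hc
    have := h.proj_of_col hbc
    intro N
    exact ⟨N, fun x y _ hy => by rw [this]; exact hy⟩
  by_cases hr : ∃ a c, ∀ y, f a y = c
  · obtain ⟨a, c, hac⟩ := hr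
    have := h.op.proj_of_col (b := a) (c := c) hac
    intro N
    exact ⟨N, fun x y hx _ => by
      have h2 : f x y = x := this y x
      rw [h2]; exact hx⟩
  have np : NP f := ⟨fun a c hh => hr ⟨a, c, hh⟩, fun b c hh => hc ⟨b, c, hh⟩⟩
  by_cases h1 : ∃ a c, ∀ y, c ≤ f a y
  · obtain ⟨a, c, hac⟩ := h1
    intro N
    obtain ⟨x0, hx0⟩ := h.caseI np hac N
    exact ⟨x0, fun x y hx _ => hx0 x y hx⟩
  by_cases h2 : ∃ b c, ∀ x, c ≤ f x b
  · obtain ⟨b, c, hbc⟩ := h2
    intro N
    obtain ⟨x0, hx0⟩ := h.op.caseI np.op hbc N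
    exact ⟨x0, fun x y _ hy => hx0 y x hy⟩
  push Not at h1 h2
  by_cases h3 : ∃ a c, ∀ y, f a y ≤ c
  · by_cases h4 : ∃ b c, ∀ x, f x b ≤ c
    · obtain ⟨a, c, hac⟩ := h3
      obtain ⟨b, d, hbd⟩ := h4
      have T : Low f :=
        { nice := h, np := np, rlow := h1, clow := h2,
          a1 := fun N => h.caseI' np hac N
          a2 := fun N => by
            obtain ⟨y0, hy0⟩ := h.op.caseI' np.op hbd N
            exact ⟨y0, fun x y hy => hy0 y x hy⟩ }
      exact T.main
    · push Not at h4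
      exact (h.op.case0 np.op h2 h4 h1).op
  · push Not at h3
    exact h.case0 np h1 h3 h2

end Pool.Agent.Helper268.Assoc
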