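import Pool.Agent.Helper268.Assoc4

set_option autoImplicit false

open Set Filter Topology

namespace Pool.Agent.Helper268.Assoc

lemma exists_log {G : ℝ × ℝ → ℂ} (hG : Continuous G) (h0 : ∀ p, G p ≠ 0) :
    ∃ L : ℝ × ℝ → ℂ, Continuous L ∧ ∀ p, Complex.exp (L p) = G p := by
  obtain ⟨L, ⟨-, hL⟩, -⟩ := Complex.isCoveringMapOn_exp.existsUnique_continuousMap_lifts
    (⟨G, hG⟩ : C(ℝ × ℝ, ℂ)) (a₀ := (0, 0)) (e₀ := Complex.log (G (0, 0)))
    (Complex.exp_log (h0 _)) (fun x => h0 x)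
  refine ⟨L, L.continuous, fun p => ?_⟩
  exact congrFun hL p

/-- A continuous function whose exponential is constant is constant. -/
lemma const_of_exp {X : Type*} [TopologicalSpace X] [PreconnectedSpace X] {u : X → ℂ}
    (hu : Continuous u) {c : ℂ} (h : ∀ x, Complex.exp (u x) = c) (x y : X) : u x = u y := by
  have := Complex.isCoveringMap_exp.eq_of_comp_eq (g₁ := u) (g₂ := fun _ => u y) hu
    continuous_const (by
      funext z
      apply Subtype.ext
      show Complex.exp (u z) = Complex.exp (u y)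
      rw [h, h]) y rfl
  exact congrFun this x

/-- Clamping to the unit interval. -/
noncomputable def cl (t : ℝ) : ℝ := max 0 (min t 1)

lemma cl_cont : Continuous cl := by unfold cl; fun_prop

lemma cl_zero {t : ℝ} (h : t ≤ 0) : cl t = 0 := by
  unfold cl
  rw [min_eq_left (by linarith), max_eq_left h]

lemma cl_one {t : ℝ} (h : 1 ≤ t) : cl t = 1 := by
  unfold cl
  rw [min_eq_right h, max_eq_right (by norm_num)]

lemma cl_nonneg (t : ℝ) : 0 ≤ cl t := le_max_left _ _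

lemma cl_le (t : ℝ) : cl t ≤ 1 := max_le (by norm_num) (min_le_right _ _)

/-- A continuous self-map of the plane with a continuous left inverse is surjective. -/
theorem surj_of_section {R S : ℂ → ℂ} (hR : Continuous R) (hS : Continuous S)
    (hSR : ∀ z, S (R z) = z) : Function.Surjective R := by
  by_contra hcon
  have hcon2 : ∃ q, ∀ z, R z ≠ q := by
    unfold Function.Surjective at hcon
    push Not at hcon
    exact hcon
  obtain ⟨q, hq⟩ := hcon2
  have hinj : Function.Injective R := fun a b hab => by rw [← hSR a, ← hSR b, hab]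
  set M := ‖q‖ + ‖R 0‖ with hM
  have hcomp : IsCompact (S '' Metric.closedBall 0 M) :=
    (isCompact_closedBall 0 M).image hS
  obtain ⟨B, hB⟩ := hcomp.isBounded.exists_norm_le
  set ρ := max B 0 + 1 with hρ
  have hρ0 : 0 < ρ := by
    have : 0 ≤ max B 0 := le_max_right _ _
    linarith
  have hbig : ∀ p : ℂ, ‖p‖ = ρ → M < ‖R p‖ := by
    intro p hp
    by_contra hc
    push Not at hc
    have h1 : ‖S (R p)‖ ≤ B := hB _ ⟨R p, by simpa using hc, rfl⟩
    rw [hSR, hp] at h1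
    have : B ≤ max B 0 := le_max_left _ _
    linarith
  let E : ℝ → ℂ := fun θ => Complex.exp (θ * Complex.I)
  have hE : Continuous E := by fun_prop
  have hE1 : ∀ θ, ‖E θ‖ = 1 := fun θ => Complex.norm_exp_ofReal_mul_I θ
  have hE0 : ∀ θ, E θ ≠ 0 := fun θ => Complex.exp_ne_zero _
  have hEpi : ∀ θ, E (θ + Real.pi) = -E θ := by
    intro θ
    show Complex.exp (((θ + Real.pi : ℝ) : ℂ) * Complex.I) = -Complex.exp (θ * Complex.I)
    push_cast
    rw [add_mul, Complex.exp_add, Complex.exp_pi_mul_I]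
    ring
  let G : ℝ × ℝ → ℂ := fun p =>
    R (((cl p.2 * ρ : ℝ) : ℂ) * E p.1) -
      ((1 - ((cl (p.2 - 1) : ℝ) : ℂ)) * q +
        ((cl (p.2 - 1) : ℝ) : ℂ) * R (-((cl (p.2 - 2) * ρ : ℝ) : ℂ) * E p.1))
  have hG : Continuous G := by
    have h1 : Continuous fun p : ℝ × ℝ => ((cl p.2 * ρ : ℝ) : ℂ) :=
      Complex.continuous_ofReal.comp ((cl_cont.comp continuous_snd).mul continuous_const)
    have h2 : Continuous fun p : ℝ × ℝ => E p.1 := hE.comp continuous_fst
    have h3 : Continuous fun p : ℝ × ℝ => ((cl (p.2 - 1) : ℝ) : ℂ) :=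
      Complex.continuous_ofReal.comp (cl_cont.comp (continuous_snd.sub continuous_const))
    have h4 : Continuous fun p : ℝ × ℝ => ((cl (p.2 - 2) * ρ : ℝ) : ℂ) :=
      Complex.continuous_ofReal.comp
        ((cl_cont.comp (continuous_snd.sub continuous_const)).mul continuous_const)
    exact (hR.comp (h1.mul h2)).sub
      (((continuous_const.sub h3).mul continuous_const).add (h3.mul (hR.comp (h4.neg.mul h2))))
  have hG0 : ∀ p, G p ≠ 0 := by
    rintro ⟨θ, s⟩ h0
    have h0 : R (((cl s * ρ : ℝ) : ℂ) * E θ) -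
      ((1 - ((cl (s - 1) : ℝ) : ℂ)) * q +
        ((cl (s - 1) : ℝ) : ℂ) * R (-((cl (s - 2) * ρ : ℝ) : ℂ) * E θ)) = 0 := h0
    rcases le_total s 1 with hs | hs
    · rw [cl_zero (t := s - 1) (by linarith)] at h0
      simp only [Complex.ofReal_zero, sub_zero, one_mul, zero_mul, add_zero] at h0
      exact hq _ (sub_eq_zero.1 h0)
    rcases le_total s 2 with hs2 | hs2
    · rw [cl_zero (t := s - 2) (by linarith), cl_one hs] at h0
      simp only [Complex.ofReal_zero, one_mul, zero_mul, neg_zero] at h0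
      have hn : ‖((ρ : ℝ) : ℂ) * E θ‖ = ρ := by
        rw [norm_mul, hE1, mul_one, Complex.norm_real, Real.norm_of_nonneg hρ0.le]
      have h1 := hbig _ hn
      rw [sub_eq_zero.1 h0] at h1
      have hb0 := cl_nonneg (s - 1)
      have hb1 := cl_le (s - 1)
      have h2 : ‖(1 - ((cl (s - 1) : ℝ) : ℂ)) * q + ((cl (s - 1) : ℝ) : ℂ) * R 0‖
          ≤ (1 - cl (s - 1)) * ‖q‖ + cl (s - 1) * ‖R 0‖ := by
        refine (norm_add_le _ _).trans ?_
        rw [norm_mul, norm_mul]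
        have e1 : ‖(1 - ((cl (s - 1) : ℝ) : ℂ))‖ = 1 - cl (s - 1) := by
          have : (1 - ((cl (s - 1) : ℝ) : ℂ)) = ((1 - cl (s - 1) : ℝ) : ℂ) := by push_cast; ring
          rw [this, Complex.norm_real, Real.norm_of_nonneg (by linarith)]
        have e2 : ‖((cl (s - 1) : ℝ) : ℂ)‖ = cl (s - 1) := by
          rw [Complex.norm_real, Real.norm_of_nonneg hb0]
        rw [e1, e2]
      have h3 : (1 - cl (s - 1)) * ‖q‖ + cl (s - 1) * ‖R 0‖ ≤ M := by
        have := norm_nonneg q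
        have := norm_nonneg (R 0)
        nlinarith
      linarith
    · rw [cl_one (t := s) (by linarith), cl_one (t := s - 1) (by linarith)] at h0
      simp only [Complex.ofReal_one, sub_self, one_mul, zero_mul, zero_add] at h0
      have h1 := hinj (sub_eq_zero.1 h0)
      have h2 : (((1 + cl (s - 2)) * ρ : ℝ) : ℂ) * E θ = 0 := by
        push_cast at h1 ⊢
        linear_combination h1
      rcases mul_eq_zero.1 h2 with h3 | h3
      · have h4 : (1 + cl (s - 2)) * ρ = 0 := by exact_mod_cast h3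
        have := cl_nonneg (s - 2)
        nlinarith
      · exact hE0 _ h3
  obtain ⟨L, hL, hLG⟩ := exists_log hG hG0
  have hGper : ∀ θ s, G (θ + 2 * Real.pi, s) = G (θ, s) := by
    intro θ s
    have : E (θ + 2 * Real.pi) = E θ := by
      rw [show θ + 2 * Real.pi = (θ + Real.pi) + Real.pi by ring, hEpi, hEpi, neg_neg]
    show R (((cl s * ρ : ℝ) : ℂ) * E (θ + 2 * Real.pi)) -
      ((1 - ((cl (s - 1) : ℝ) : ℂ)) * q +
        ((cl (s - 1) : ℝ) : ℂ) * R (-((cl (s - 2) * ρ : ℝ) : ℂ) * E (θ + 2 * Real.pi))) =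
      R (((cl s * ρ : ℝ) : ℂ) * E θ) -
      ((1 - ((cl (s - 1) : ℝ) : ℂ)) * q +
        ((cl (s - 1) : ℝ) : ℂ) * R (-((cl (s - 2) * ρ : ℝ) : ℂ) * E θ))
    rw [this]
  have hu : Continuous fun p : ℝ × ℝ => L (p.1 + 2 * Real.pi, p.2) - L p :=
    (hL.comp (by fun_prop : Continuous fun p : ℝ × ℝ => (p.1 + 2 * Real.pi, p.2))).sub hL
  have hue : ∀ p : ℝ × ℝ, Complex.exp (L (p.1 + 2 * Real.pi, p.2) - L p) = 1 := by
    rintro ⟨θ, s⟩
    rw [Complex.exp_sub, hLG, hLG, hGper]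
    exact div_self (hG0 _)
  have hv : Continuous fun θ : ℝ => L (θ, 0) :=
    hL.comp (by fun_prop : Continuous fun θ : ℝ => (θ, (0 : ℝ)))
  have hve : ∀ θ : ℝ, Complex.exp (L (θ, 0)) = R 0 - q := by
    intro θ
    rw [hLG]
    show R (((cl 0 * ρ : ℝ) : ℂ) * E θ) -
      ((1 - ((cl (0 - 1) : ℝ) : ℂ)) * q +
        ((cl (0 - 1) : ℝ) : ℂ) * R (-((cl (0 - 2) * ρ : ℝ) : ℂ) * E θ)) = R 0 - q
    rw [cl_zero (t := 0) le_rfl, cl_zero (t := 0 - 1) (by norm_num)]
    simp
  have hu0 : ∀ p : ℝ × ℝ, L (p.1 + 2 * Real.pi, p.2) - L p = 0 := by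
    intro p
    have h1 := const_of_exp hu hue p (0, 0)
    simp only at h1
    have h2 := const_of_exp hv hve (0 + 2 * Real.pi) 0
    rw [h1, h2, sub_self]
  have hG3 : ∀ θ, G (θ + Real.pi, 3) = -G (θ, 3) := by
    intro θ
    show R (((cl 3 * ρ : ℝ) : ℂ) * E (θ + Real.pi)) -
      ((1 - ((cl (3 - 1) : ℝ) : ℂ)) * q +
        ((cl (3 - 1) : ℝ) : ℂ) * R (-((cl (3 - 2) * ρ : ℝ) : ℂ) * E (θ + Real.pi))) =
      -(R (((cl 3 * ρ : ℝ) : ℂ) * E θ) -
      ((1 - ((cl (3 - 1) : ℝ) : ℂ)) * q +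
        ((cl (3 - 1) : ℝ) : ℂ) * R (-((cl (3 - 2) * ρ : ℝ) : ℂ) * E θ)))
    rw [hEpi, cl_one (t := 3) (by norm_num), cl_one (t := 3 - 1) (by norm_num),
      cl_one (t := 3 - 2) (by norm_num)]
    simp only [Complex.ofReal_one, one_mul, sub_self, zero_mul, zero_add, mul_neg, neg_mul,
      neg_neg, neg_sub]
  have hw : Continuous fun θ : ℝ => L (θ + Real.pi, 3) - L (θ, 3) :=
    (hL.comp (by fun_prop : Continuous fun θ : ℝ => (θ + Real.pi, (3 : ℝ)))).sub
      (hL.comp (by fun_prop : Continuous fun θ : ℝ => (θ, (3 : ℝ))))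
  have hwe : ∀ θ : ℝ, Complex.exp (L (θ + Real.pi, 3) - L (θ, 3)) = -1 := by
    intro θ
    rw [Complex.exp_sub, hLG, hLG, hG3, neg_div, div_self (hG0 _)]
  have h1 : L (0 + Real.pi + Real.pi, 3) - L (0 + Real.pi, 3) =
      L (0 + Real.pi, 3) - L (0, 3) := const_of_exp hw hwe (0 + Real.pi) 0
  have h2 : L (0 + 2 * Real.pi, 3) - L (0, 3) = 0 := hu0 (0, 3)
  have h3 : L (0 + Real.pi, 3) - L (0, 3) = 0 := by
    have h4 : L (0 + Real.pi + Real.pi, 3) = L (0 + 2 * Real.pi, 3) := by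
      congr 2; ring
    rw [h4] at h1
    linear_combination (h2 - h1) / 2
  have h5 := hwe 0
  rw [h3, Complex.exp_zero] at h5
  norm_num at h5

/-- Transfer to the product plane. -/
theorem surj_of_section' {R S : ℝ × ℝ → ℝ × ℝ} (hR : Continuous R) (hS : Continuous S)
    (hSR : ∀ z, S (R z) = z) : Function.Surjective R := by
  let e := Complex.equivRealProdCLM
  have h := surj_of_section (R := fun z => e.symm (R (e z))) (S := fun z => e.symm (S (e z)))
    (e.symm.continuous.comp (hR.comp e.continuous))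
    (e.symm.continuous.comp (hS.comp e.continuous))
    (fun z => by simp [hSR])
  intro y
  obtain ⟨z, hz⟩ := h (e.symm y)
  exact ⟨e z, e.symm.injective hz⟩

/-- If a composition of two continuous self-maps of the plane is a homeomorphism then both
factors are. -/
theorem homeo_factors {R S : ℝ × ℝ → ℝ × ℝ} (hR : Continuous R) (hS : Continuous S)
    (H : (ℝ × ℝ) ≃ₜ (ℝ × ℝ)) (hSR : ∀ z, S (R z) = H z) :
    (∃ R' : (ℝ × ℝ) ≃ₜ (ℝ × ℝ), ∀ z, R' z = R z) ∧
      (∃ S' : (ℝ × ℝ) ≃ₜ (ℝ × ℝ), ∀ z, S' z = S z) := by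
  have hL : ∀ z, H.symm (S (R z)) = z := fun z => by rw [hSR, H.symm_apply_apply]
  have hsurj := surj_of_section' hR (H.symm.continuous.comp hS) hL
  have hRS : ∀ z, R (H.symm (S z)) = z := by
    intro z
    obtain ⟨w, rfl⟩ := hsurj z
    rw [hL]
  refine ⟨⟨⟨⟨R, fun z => H.symm (S z), hL, hRS⟩, hR, H.symm.continuous.comp hS⟩,
    fun z => rfl⟩, ⟨⟨⟨S, fun z => R (H.symm z), fun z => ?_, fun z => ?_⟩, hS,
      hR.comp H.symm.continuous⟩, fun z => rfl⟩⟩
  · exact hRS z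
  · rw [hSR, H.apply_symm_apply]

/-- All factors of a homeomorphism are homeomorphisms. -/
theorem homeo_list (L : List (ℝ × ℝ → ℝ × ℝ)) (hL : ∀ S ∈ L, Continuous S)
    (H : (ℝ × ℝ) ≃ₜ (ℝ × ℝ)) (hH : ∀ z, L.foldr (fun S R => S ∘ R) id z = H z) :
    ∀ S ∈ L, ∃ S' : (ℝ × ℝ) ≃ₜ (ℝ × ℝ), ∀ z, S' z = S z := by
  induction L generalizing H with
  | nil => intro S hS; simp at hS
  | cons S0 L ih =>
    have hcont : ∀ L' : List (ℝ × ℝ → ℝ × ℝ), (∀ S ∈ L', Continuous S) →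
        Continuous (L'.foldr (fun S R => S ∘ R) id) := by
      intro L'
      induction L' with
      | nil => intro _; exact continuous_id
      | cons S1 L1 ih1 =>
        intro h
        exact (h S1 (by simp)).comp (ih1 fun S hS => h S (by simp [hS]))
    have hR := hcont L fun S hS => hL S (by simp [hS])
    have hS0 := hL S0 (by simp)
    obtain ⟨⟨R', hR'⟩, ⟨S', hS'⟩⟩ := homeo_factors hR hS0 H hH
    intro S hS
    rcases List.mem_cons.1 hS with rfl | hS
    · exact ⟨S', hS'⟩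
    · exact ih (fun S hS => hL S (by simp [hS])) R' (fun z => (hR' z).symm) S hS

lemma nice_of_homeo_fst (H : (ℝ × ℝ) ≃ₜ (ℝ × ℝ))
    (ha : ∀ a b c : ℝ, (H ((H (a, b)).1, c)).1 = (H (a, (H (b, c)).1)).1) :
    Nice (fun x y => (H (x, y)).1) where
  cont := continuous_fst.comp H.continuous
  assoc := ha
  conn_gt := fun c => by
    have h1 : IsPreconnected {p : ℝ × ℝ | c < p.1} := by
      have : {p : ℝ × ℝ | c < p.1} = Ioi c ×ˢ (univ : Set ℝ) := by ext p; simp
      rw [this]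
      exact isPreconnected_Ioi.prod isPreconnected_univ
    exact h1.preimage_of_isOpenMap H.injective H.isOpenMap (fun x _ => H.surjective x)
  conn_lt := fun c => by
    have h1 : IsPreconnected {p : ℝ × ℝ | p.1 < c} := by
      have : {p : ℝ × ℝ | p.1 < c} = Iio c ×ˢ (univ : Set ℝ) := by ext p; simp
      rw [this]
      exact isPreconnected_Iio.prod isPreconnected_univ
    exact h1.preimage_of_isOpenMap H.injective H.isOpenMap (fun x _ => H.surjective x)
  opn := isOpenMap_fst.comp H.isOpenMap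
  surj := fun c => by
    obtain ⟨⟨a, b⟩, h⟩ := H.surjective (c, 0)
    exact ⟨a, b, by rw [h]⟩

lemma nice_of_homeo_snd (H : (ℝ × ℝ) ≃ₜ (ℝ × ℝ))
    (ha : ∀ a b c : ℝ, (H ((H (a, b)).2, c)).2 = (H (a, (H (b, c)).2)).2) :
    Nice (fun x y => (H (x, y)).2) :=
  nice_of_homeo_fst (H.trans (Homeomorph.prodComm ℝ ℝ)) ha

/-- Maps of the plane sending large pairs to large pairs. -/
def Up (T : ℝ × ℝ → ℝ × ℝ) : Prop :=
  ∀ N, ∃ K, ∀ x y, K ≤ x → K ≤ y → N ≤ (T (x, y)).1 ∧ N ≤ (T (x, y)).2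

lemma Up.comp {S R : ℝ × ℝ → ℝ × ℝ} (hS : Up S) (hR : Up R) : Up (S ∘ R) := by
  intro N
  obtain ⟨K1, h1⟩ := hS N
  obtain ⟨K2, h2⟩ := hR K1
  refine ⟨K2, fun x y hx hy => ?_⟩
  obtain ⟨h3, h4⟩ := h2 x y hx hy
  exact h1 _ _ h3 h4

lemma up_of_homeo (H : (ℝ × ℝ) ≃ₜ (ℝ × ℝ))
    (ha : ∀ a b c : ℝ, (H ((H (a, b)).1, c)).1 = (H (a, (H (b, c)).1)).1)
    (hb : ∀ a b c : ℝ, (H ((H (a, b)).2, c)).2 = (H (a, (H (b, c)).2)).2) : Up H := by
  intro N
  obtain ⟨K1, h1⟩ := (nice_of_homeo_fst H ha).main N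
  obtain ⟨K2, h2⟩ := (nice_of_homeo_snd H hb).main N
  exact ⟨max K1 K2, fun x y hx hy =>
    ⟨h1 x y ((le_max_left _ _).trans hx) ((le_max_left _ _).trans hy),
      h2 x y ((le_max_right _ _).trans hx) ((le_max_right _ _).trans hy)⟩⟩

lemma up_list (L : List (ℝ × ℝ → ℝ × ℝ)) (hL : ∀ S ∈ L, Up S) :
    Up (L.foldr (fun S R => S ∘ R) id) := by
  induction L with
  | nil => exact fun N => ⟨N, fun x y hx hy => ⟨hx, hy⟩⟩
  | cons S0 L ih =>
    exact (hL S0 (by simp)).comp (ih fun S hS => hL S (by simp [hS]))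

end Pool.Agent.Helper268.Assoc
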