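import Mathlib

set_option autoImplicit false

open Polynomial

namespace Pool.Agent.Helper268.Cfd

noncomputable section

/-- numerator of A -/
def Np : ℂ[X] := X ^ 4 + 6 * X ^ 3 + 12 * X ^ 2 + 6 * X
/-- denominator of A -/
def Qp : ℂ[X] := 4 * X + 3
/-- numerator of the derivative of A -/
def Wp : ℂ[X] := 12 * X ^ 4 + 60 * X ^ 3 + 102 * X ^ 2 + 72 * X + 18

lemma natDegree_Qp : Qp.natDegree = 1 := by
  unfold Qp; compute_degree!

lemma natDegree_Np : Np.natDegree = 4 := by
  unfold Np; compute_degree!

lemma natDegree_Wp : Wp.natDegree = 4 := by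
  unfold Wp; compute_degree!

lemma Qp_ne_zero : Qp ≠ 0 := by
  intro h; have := natDegree_Qp; rw [h] at this; simp at this

lemma Wp_ne_zero : Wp ≠ 0 := by
  intro h; have := natDegree_Wp; rw [h] at this; simp at this

lemma Np_ne_zero : Np ≠ 0 := by
  intro h; have := natDegree_Np; rw [h] at this; simp at this

lemma natDegree_sub (r : ℂ) : (Np - C r * Qp).natDegree = 4 := by
  unfold Np Qp; compute_degree!

lemma Wp_eq : Wp = derivative Np * Qp - Np * derivative Qp := by
  unfold Np Qp Wp
  simp only [derivative_add, derivative_mul, derivative_X_pow, derivative_X, derivative_ofNat]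
  simp only [Nat.cast_ofNat, map_ofNat, Nat.add_one_sub_one]
  ring

lemma coprime_QW : IsCoprime Qp Wp := by
  refine ⟨C (1/9) * (192 * X ^ 3 + 816 * X ^ 2 + 1020 * X + 387), C (1/9) * (-64), ?_⟩
  have h : (192 * X ^ 3 + 816 * X ^ 2 + 1020 * X + 387) * Qp + (-64) * Wp = C 9 := by
    unfold Qp Wp
    rw [show (C 9 : ℂ[X]) = 9 from rfl]
    ring
  rw [mul_assoc, mul_assoc, ← mul_add, h, ← C_mul]
  norm_num

/-- the key polynomial obstruction -/
theorem alg_key (a : ℂ[X]) (ha : a ≠ 0) (d : ℕ) (hd : 1 ≤ d) (κ : ℂ)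
    (h : aeval (algebraMap ℂ[X] (RatFunc ℂ) Np / algebraMap ℂ[X] (RatFunc ℂ) Qp) a =
      algebraMap ℂ (RatFunc ℂ) κ *
        (algebraMap ℂ[X] (RatFunc ℂ) Wp / algebraMap ℂ[X] (RatFunc ℂ) Qp ^ 2) ^ d *
        algebraMap ℂ[X] (RatFunc ℂ) a) : False := by
  set F := algebraMap ℂ[X] (RatFunc ℂ) with hF
  have hinj : Function.Injective F := RatFunc.algebraMap_injective ℂ
  have hQ0 : F Qp ≠ 0 := by
    rw [Ne, map_eq_zero_iff _ hinj]; exact Qp_ne_zero
  set m := a.natDegree with hm
  set s := a.roots with hs
  have hcard : s.card = m := by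
    rw [hs, hm]
    exact (splits_iff_card_roots.mp (IsAlgClosed.splits a))
  have hprod : a = C a.leadingCoeff * (s.map (fun r => X - C r)).prod := by
    exact (C_leadingCoeff_mul_prod_multiset_X_sub_C (by rw [← hs, hcard])).symm
  set H : ℂ[X] := C a.leadingCoeff * (s.map (fun r => Np - C r * Qp)).prod with hH
  have key1 : aeval (F Np / F Qp) a * F Qp ^ m = F H := by
    have h1 : aeval (F Np / F Qp) a = F (C a.leadingCoeff) *
        (s.map (fun r => F Np / F Qp - F (C r))).prod := by
      conv_lhs => rw [hprod]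
      rw [map_mul, aeval_C, map_multiset_prod, Multiset.map_map]
      congr 1
      congr 1
      apply Multiset.map_congr rfl
      intro r _
      simp only [Function.comp_apply, map_sub, aeval_X, aeval_C]
      rfl
    rw [h1, hH, map_mul, map_multiset_prod, Multiset.map_map, mul_assoc]
    congr 1
    rw [← hcard, ← Multiset.prod_replicate, ← Multiset.map_const', ← Multiset.prod_map_mul]
    congr 1
    apply Multiset.map_congr rfl
    intro r _
    simp only [Function.comp_apply, map_sub, map_mul]
    field_simp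
  have key2 : Qp ^ (2 * d) * H = C κ * Qp ^ m * Wp ^ d * a := by
    apply hinj
    rw [map_mul, ← key1, h]
    simp only [map_mul, map_pow]
    have : F (C κ) = algebraMap ℂ (RatFunc ℂ) κ := rfl
    rw [this, div_pow]
    field_simp
    ring
  have hHne : H ≠ 0 := by
    rw [hH]
    refine mul_ne_zero (by simpa using ha) ?_
    apply Multiset.prod_ne_zero
    simp only [Multiset.mem_map, not_exists, not_and]
    intro r _ h0
    have := natDegree_sub r
    rw [h0] at this
    simp at this
  have hHdeg : H.natDegree = 4 * m := by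
    rw [hH, natDegree_C_mul (by simpa using ha), natDegree_multiset_prod]
    · rw [Multiset.map_map]
      have : (Multiset.map (natDegree ∘ fun r => Np - C r * Qp) s) = Multiset.map (fun _ => 4) s := by
        apply Multiset.map_congr rfl
        intro r _
        exact natDegree_sub r
      rw [this, Multiset.map_const', Multiset.sum_replicate, hcard, smul_eq_mul, mul_comm]
    · simp only [Multiset.mem_map, not_exists, not_and]
      intro r _ h0
      have := natDegree_sub r
      rw [h0] at this
      simp at this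
  have hκ : κ ≠ 0 := by
    rintro rfl
    rw [map_zero, zero_mul, zero_mul, zero_mul] at key2
    exact mul_ne_zero (pow_ne_zero _ Qp_ne_zero) hHne key2
  have hmd : m = d := by
    have h1 := congrArg natDegree key2
    rw [natDegree_mul (pow_ne_zero _ Qp_ne_zero) hHne, natDegree_pow, natDegree_Qp, hHdeg,
      mul_assoc, mul_assoc, mul_assoc, natDegree_C_mul hκ,
      natDegree_mul (pow_ne_zero _ Qp_ne_zero) (mul_ne_zero (pow_ne_zero _ Wp_ne_zero) ha),
      natDegree_mul (pow_ne_zero _ Wp_ne_zero) ha, natDegree_pow, natDegree_pow, natDegree_Qp,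
      natDegree_Wp, ← hm] at h1
    omega
  have key3 : Qp ^ d * H = Wp ^ d * (C κ * a) := by
    have hq : Qp ^ d ≠ 0 := pow_ne_zero _ Qp_ne_zero
    apply mul_left_cancel₀ hq
    rw [← mul_assoc, ← pow_add, ← two_mul, key2, hmd]
    ring
  have hdvd : Qp ^ d ∣ C κ * a :=
    (IsCoprime.pow (m := d) (n := d) coprime_QW).dvd_of_dvd_mul_left ⟨H, key3.symm⟩
  obtain ⟨t, ht⟩ := hdvd
  have ht0 : t ≠ 0 := by
    rintro rfl
    rw [mul_zero] at ht
    exact mul_ne_zero (by simpa using hκ) ha ht
  have htdeg : t.natDegree = 0 := by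
    have h1 := congrArg natDegree ht
    rw [natDegree_C_mul hκ, natDegree_mul (pow_ne_zero _ Qp_ne_zero) ht0, natDegree_pow,
      natDegree_Qp, ← hm] at h1
    omega
  have hev : a.eval (-1) ≠ 0 := by
    intro h0
    have h1 := congrArg (eval (-1)) ht
    rw [eval_mul, h0, mul_zero, eval_mul, eq_C_of_natDegree_eq_zero htdeg, eval_C, eval_pow] at h1
    have h2 : eval (-1 : ℂ) Qp = -1 := by
      unfold Qp
      simp
      norm_num
    rw [h2] at h1
    have h3 : t.coeff 0 ≠ 0 := by
      intro h4
      apply ht0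
      rw [eq_C_of_natDegree_eq_zero htdeg, h4, C_0]
    exact mul_ne_zero (pow_ne_zero _ (by norm_num)) h3 h1.symm
  have hHev : H.eval (-1) = 0 := by
    have h1 := congrArg (eval (-1)) key3
    rw [eval_mul (q := H), eval_mul (q := C κ * a), eval_pow, eval_pow] at h1
    have h2 : eval (-1 : ℂ) Qp = -1 := by
      unfold Qp
      simp
      norm_num
    have h3 : eval (-1 : ℂ) Wp = 0 := by
      unfold Wp
      simp
      norm_num
    rw [h2, h3, zero_pow (by omega), zero_mul] at h1
    exact (mul_eq_zero.mp h1).resolve_left (pow_ne_zero _ (by norm_num))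
  rw [hH, eval_mul, eval_C, eval_multiset_prod, Multiset.map_map] at hHev
  have h5 := (mul_eq_zero.mp hHev).resolve_left (by simpa using ha)
  rw [Multiset.prod_eq_zero_iff, Multiset.mem_map] at h5
  obtain ⟨r, hr, hr0⟩ := h5
  have h6 : r = -1 := by
    unfold Np Qp at hr0
    simp at hr0
    linear_combination hr0
  rw [hs, mem_roots ha, h6] at hr
  exact hev hr

end

end Pool.Agent.Helper268.Cfd
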