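import Pool.Agent.Helper268.Cfd9

set_option autoImplicit false

open Polynomial

namespace Pool.Agent.Helper268.Cfd

noncomputable section

/-- the rotation-reflection data upstairs -/
theorem cond_ii_false (φ : RatFunc ℂ →ₐ[ℂ] RatFunc ℂ) (hφ : φ RatFunc.X = Af) (P : RatFunc ℂ)
    (hP : IsGalois (IntermediateField.adjoin ℂ ({P} : Set (RatFunc ℂ))) (RatFunc ℂ)) (l : ℕ)
    (hl : (⇑φ)^[l] P ∈ IntermediateField.adjoin ℂ ({Bf} : Set (RatFunc ℂ))) : False := by
  have hx0 : (RatFunc.X : RatFunc ℂ) ≠ 0 := RatFunc.X_ne_zero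
  -- primitive cube root of unity
  obtain ⟨ω, hω1, hω2⟩ : ∃ ω : ℂ, ω ^ 3 = 1 ∧ ω ^ 2 ≠ 1 := by
    have h := Complex.isPrimitiveRoot_exp 3 (by norm_num)
    refine ⟨_, h.pow_eq_one, ?_⟩
    exact h.pow_ne_one_of_pos_of_lt (by norm_num) (by norm_num)
  have hω0 : ω ≠ 0 := by
    rintro rfl
    norm_num at hω1
  set w : RatFunc ℂ := algebraMap ℂ (RatFunc ℂ) ω with hw
  have hw3 : w ^ 3 = 1 := by rw [hw, ← map_pow, hω1, map_one]
  have hw0 : w ≠ 0 := by rw [hw, Ne, map_eq_zero]; exact hω0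
  have hw2 : w ^ 2 ≠ 1 := by
    rw [hw, ← map_pow, Ne, map_eq_one_iff _ (algebraMap ℂ (RatFunc ℂ)).injective]
    exact hω2
  -- the four substitutions
  obtain ⟨ρ, hρ⟩ := exists_subst (w * RatFunc.X) (by
    intro halg
    apply ratX_trans
    have h3 : (RatFunc.X : RatFunc ℂ) = algebraMap ℂ (RatFunc ℂ) ω⁻¹ * (w * RatFunc.X) := by
      rw [hw, ← mul_assoc, ← map_mul, inv_mul_cancel₀ hω0, map_one, one_mul]
    rw [h3]
    exact (isAlgebraic_algebraMap ω⁻¹).mul halg)
  obtain ⟨σ, hσ⟩ := exists_subst (RatFunc.X⁻¹) (by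
    intro halg
    apply ratX_trans
    have := halg.inv
    rwa [inv_inv] at this)
  have hpi_tr : Transcendental ℂ (3 * RatFunc.X / (RatFunc.X - 1) ^ 2 : RatFunc ℂ) := by
    apply trans_of_ne_const
    intro c
    have h := quot_ne_C (p := 3 * X) (q := (X - 1) ^ 2) (pow_ne_zero _ (by
      rw [← C_1]; exact X_sub_C_ne_zero 1)) (by
        intro c hc
        have h1 := congrArg (eval 1) hc
        simp at h1) c
    simpa [fo3, RatFunc.algebraMap_X] using h
  obtain ⟨π, hπ⟩ := exists_subst _ hpi_tr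
  have hF_tr : Transcendental ℂ (RatFunc.X * (RatFunc.X ^ 3 + 2) / (2 * RatFunc.X ^ 3 + 1) :
      RatFunc ℂ) := by
    apply trans_of_ne_const
    intro c
    have h := quot_ne_C (p := X * (X ^ 3 + 2)) (q := 2 * X ^ 3 + 1) (by
      intro h0
      have := congrArg (fun p => coeff p 0) h0
      simp at this) (by
        intro c hc
        have h1 := congrArg (eval 0) hc
        have h2 := congrArg (eval 1) hc
        simp at h1 h2
        rw [← h1] at h2
        norm_num at h2) c
    simpa [fo2, RatFunc.algebraMap_X] using h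
  obtain ⟨f, hf⟩ := exists_subst _ hF_tr
  have n1 := ne_xm1
  have n2 := ne_2x3
  have n3 := ne_x1
  have n4 := ne_x3m1
  have n5 := ne_x2x1
  -- relations
  have r1 : π.comp φ = f.comp π := by
    apply hom_ext
    rw [AlgHom.comp_apply, AlgHom.comp_apply, hφ, Af_eq, hπ]
    simp only [map_div₀, map_add, map_mul, map_sub, map_pow, map_ofNat, map_one, hπ, hf]
    have e1 : (4 : RatFunc ℂ) * (3 * RatFunc.X / (RatFunc.X - 1) ^ 2) + 3 =
        3 * (RatFunc.X + 1) ^ 2 / (RatFunc.X - 1) ^ 2 := by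
      rw [mul_div_assoc', div_add' _ _ _ (pow_ne_zero _ n1)]
      congr 1
      ring
    have e2 : (RatFunc.X : RatFunc ℂ) * (RatFunc.X ^ 3 + 2) / (2 * RatFunc.X ^ 3 + 1) - 1 =
        (RatFunc.X - 1) ^ 3 * (RatFunc.X + 1) / (2 * RatFunc.X ^ 3 + 1) := by
      rw [div_sub_one n2]
      congr 1
      ring
    have h3 : (3 : RatFunc ℂ) ≠ 0 := by
      have : (algebraMap ℂ (RatFunc ℂ) 3) ≠ 0 := by
        rw [Ne, map_eq_zero]; norm_num
      rwa [map_ofNat] at this
    rw [e1, e2]
    field_simp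
    ring
  have r2 : ρ.comp f = f.comp ρ := by
    apply hom_ext
    rw [AlgHom.comp_apply, AlgHom.comp_apply, hf, hρ]
    simp only [map_div₀, map_add, map_mul, map_sub, map_pow, map_ofNat, map_one, hρ, hf]
    rw [mul_pow, hw3, one_mul]
    have : f w = w := by rw [hw]; exact f.commutes ω
    rw [this]
    ring
  have r3 : σ.comp π = π := by
    apply hom_ext
    rw [AlgHom.comp_apply, hπ]
    simp only [map_div₀, map_add, map_mul, map_sub, map_pow, map_ofNat, map_one, hσ]
    have : (RatFunc.X⁻¹ - 1 : RatFunc ℂ) = -(RatFunc.X - 1) * RatFunc.X⁻¹ := by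
      field_simp
      ring
    rw [this]
    field_simp
  have hπB : π Bf = 27 * RatFunc.X ^ 3 / (RatFunc.X ^ 3 - 1) ^ 2 := by
    rw [Bf_eq]
    simp only [map_div₀, map_add, map_mul, map_sub, map_pow, map_ofNat, map_one, hπ]
    have e1 : 3 * RatFunc.X / (RatFunc.X - 1) ^ 2 + 1 =
        (RatFunc.X ^ 2 + RatFunc.X + 1) / (RatFunc.X - 1 : RatFunc ℂ) ^ 2 := by
      rw [div_add_one (pow_ne_zero _ n1)]
      congr 1
      ring
    have e2 : (RatFunc.X ^ 3 - 1 : RatFunc ℂ) = (RatFunc.X - 1) *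
      (RatFunc.X ^ 2 + RatFunc.X + 1) := by ring
    rw [e1, e2]
    field_simp
    ring
  have r4 : ρ (π Bf) = π Bf := by
    rw [hπB]
    simp only [map_div₀, map_add, map_mul, map_sub, map_pow, map_ofNat, map_one, hρ]
    rw [mul_pow, hw3, one_mul]
  have r5 : ∀ u ∈ IntermediateField.adjoin ℂ ({Bf} : Set (RatFunc ℂ)), ρ (π u) = π u := by
    intro u hu
    induction hu using IntermediateField.adjoin_induction with
    | mem y hy =>
      rw [Set.mem_singleton_iff] at hy
      rw [hy, r4]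
    | algebraMap c => rw [AlgHom.commutes, AlgHom.commutes]
    | add a b _ _ ha hb => rw [map_add, map_add, ha, hb]
    | inv a _ ha => rw [map_inv₀, map_inv₀, ha]
    | mul a b _ _ ha hb => rw [map_mul, map_mul, ha, hb]
  have hfinj : Function.Injective f := RingHom.injective f.toRingHom
  have hπinj : Function.Injective π := RingHom.injective π.toRingHom
  have s1 : ∀ u, π ((⇑φ)^[l] u) = (⇑f)^[l] (π u) := by
    intro u
    exact (Function.Semiconj.iterate_right (f := ⇑π) (ga := ⇑φ) (gb := ⇑f)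
      (fun v => DFunLike.congr_fun r1 v) l) u
  have s2 : ∀ u, ρ ((⇑f)^[l] u) = (⇑f)^[l] (ρ u) := by
    intro u
    exact (Function.Semiconj.iterate_right (f := ⇑ρ) (ga := ⇑f) (gb := ⇑f)
      (fun v => DFunLike.congr_fun r2 v) l) u
  have hPfix : ρ (π P) = π P := by
    have h1 := r5 _ hl
    rw [s1, s2] at h1
    exact (hfinj.iterate l) h1
  -- normality
  set E := IntermediateField.adjoin ℂ ({P} : Set (RatFunc ℂ)) with hE
  have hEfix : ∀ u ∈ E, ρ (π u) = π u := by
    intro u hu
    induction hu using IntermediateField.adjoin_induction with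
    | mem y hy =>
      rw [Set.mem_singleton_iff] at hy
      rw [hy, hPfix]
    | algebraMap c => rw [AlgHom.commutes, AlgHom.commutes]
    | add a b _ _ ha hb => rw [map_add, map_add, ha, hb]
    | inv a _ ha => rw [map_inv₀, map_inv₀, ha]
    | mul a b _ _ ha hb => rw [map_mul, map_mul, ha, hb]
  have hnormal : Normal E (RatFunc ℂ) := hP.to_normal
  have hint : IsIntegral E (RatFunc.X : RatFunc ℂ) := hnormal.isIntegral _
  have hsplit := hnormal.splits (RatFunc.X : RatFunc ℂ)
  set M := (minpoly E (RatFunc.X : RatFunc ℂ)).map (algebraMap E (RatFunc ℂ)) with hM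
  have hMmonic : M.Monic := (minpoly.monic hint).map _
  have hMroot : eval (RatFunc.X : RatFunc ℂ) M = 0 := by
    rw [hM, eval_map_algebraMap, minpoly.aeval]
  have hMfac : M = (M.roots.map (fun a => X - C a)).prod := by
    have h1 := splits_iff_card_roots.mp hsplit
    have h2 := C_leadingCoeff_mul_prod_multiset_X_sub_C h1
    rw [hMmonic.leadingCoeff, C_1, one_mul] at h2
    exact h2.symm
  have hMπ : (M.map π.toRingHom).map ρ.toRingHom = M.map π.toRingHom := by
    rw [Polynomial.map_map, hM, Polynomial.map_map, Polynomial.map_map]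
    exact congrArg (fun g => (minpoly E (RatFunc.X : RatFunc ℂ)).map g)
      (RingHom.ext fun u => hEfix u u.2)
  have hroot2 : eval (ρ (π RatFunc.X)) (M.map π.toRingHom) = 0 := by
    rw [← hMπ]
    have h1 : ρ (π RatFunc.X) = ρ.toRingHom (π.toRingHom RatFunc.X) := rfl
    rw [h1, eval_map_apply, eval_map_apply, hMroot, map_zero, map_zero]
  have hprod : eval (ρ (π RatFunc.X)) (M.map π.toRingHom) =
      (M.roots.map (fun a => ρ (π RatFunc.X) - π a)).prod := by
    conv_lhs => rw [hMfac]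
    rw [Polynomial.map_multiset_prod, eval_multiset_prod, Multiset.map_map, Multiset.map_map]
    congr 1
    apply Multiset.map_congr rfl
    intro a _
    simp
  rw [hprod, Multiset.prod_eq_zero_iff, Multiset.mem_map] at hroot2
  obtain ⟨a, _, ha⟩ := hroot2
  have hva : ρ (π RatFunc.X) = π a := sub_eq_zero.mp ha
  have hfix : σ (ρ (π RatFunc.X)) = ρ (π RatFunc.X) := by
    rw [hva]
    exact DFunLike.congr_fun r3 a
  have hv : ρ (π RatFunc.X) = 3 * (w * RatFunc.X) / (w * RatFunc.X - 1) ^ 2 := by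
    rw [hπ]
    simp only [map_div₀, map_mul, map_sub, map_pow, map_ofNat, map_one, hρ]
  have hσw : σ w = w := by rw [hw]; exact σ.commutes ω
  have hv2 : σ (ρ (π RatFunc.X)) = 3 * (w * RatFunc.X⁻¹) / (w * RatFunc.X⁻¹ - 1) ^ 2 := by
    rw [hv]
    simp only [map_div₀, map_mul, map_sub, map_pow, map_ofNat, map_one, hσ, hσw]
  have hA1 : w * RatFunc.X - 1 ≠ 0 := by
    have h := lin_ne ω (-1) hω0
    rw [map_neg, map_one] at h
    rwa [sub_eq_add_neg]
  have hA2 : w - RatFunc.X ≠ 0 := by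
    have h := lin_ne (-1) ω (by norm_num)
    rw [map_neg, map_one] at h
    intro h0
    apply h
    rw [← hw]
    linear_combination h0
  have hA3 : w * RatFunc.X⁻¹ - 1 ≠ 0 := by
    intro h0
    apply hA2
    have h1 : (w * RatFunc.X⁻¹ - 1) * RatFunc.X = w - RatFunc.X := by
      field_simp
    rw [← h1, h0, zero_mul]
  have h3 : (3 : RatFunc ℂ) ≠ 0 := by
    have : (algebraMap ℂ (RatFunc ℂ) 3) ≠ 0 := by
      rw [Ne, map_eq_zero]; norm_num
    rwa [map_ofNat] at this
  rw [hv2, hv, div_eq_div_iff (pow_ne_zero _ hA3) (pow_ne_zero _ hA1)] at hfix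
  have hkey : (w ^ 2 - 1) * (RatFunc.X ^ 2 - 1) = 0 := by
    have h6 := congrArg (fun u => u * RatFunc.X) hfix
    field_simp at h6
    linear_combination h6
  rcases mul_eq_zero.mp hkey with h | h
  · exact hw2 (sub_eq_zero.mp h)
  · have h' := ne_monic (X ^ 2 - 1) 0 (-1) (by norm_num) (by simp)
    apply h'
    simpa using h

end

end Pool.Agent.Helper268.Cfd
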