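import Mathlib

set_option autoImplicit false

open Polynomial

namespace Pool.Agent.Helper268.Cfd

noncomputable section

section val

variable {K : Type} [Field K] [Algebra ℂ K]

omit [Algebra ℂ K] in
lemma mul_lt_one_of_le_of_lt' {V : ValuationSubring K} {a b : V.ValueGroup} (ha : a ≤ 1)
    (hb : b < 1) : a * b < 1 := by
  rw [mul_comm]
  exact mul_lt_one_of_lt_of_le hb ha

lemma val_const_le (V : ValuationSubring K) (hV : ∀ c : ℂ, algebraMap ℂ K c ∈ V) (c : ℂ) :
    V.valuation (algebraMap ℂ K c) ≤ 1 := (V.valuation_le_one_iff _).mpr (hV c)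

lemma val_const_eq (V : ValuationSubring K) (hV : ∀ c : ℂ, algebraMap ℂ K c ∈ V) {c : ℂ}
    (hc : c ≠ 0) : V.valuation (algebraMap ℂ K c) = 1 := by
  refine le_antisymm (val_const_le V hV c) ?_
  have h1 := val_const_le V hV c⁻¹
  rw [map_inv₀, map_inv₀] at h1
  have hne : V.valuation (algebraMap ℂ K c) ≠ 0 := by
    rw [Ne, Valuation.zero_iff, map_eq_zero]
    exact hc
  exact (inv_le_one₀ (zero_lt_iff.mpr hne)).mp h1

lemma aeval_mem (V : ValuationSubring K) (hV : ∀ c : ℂ, algebraMap ℂ K c ∈ V) {x : K}
    (hx : x ∈ V) (p : ℂ[X]) : aeval x p ∈ V := by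
  induction p using Polynomial.induction_on' with
  | add p q hp hq => rw [map_add]; exact V.add_mem _ _ hp hq
  | monomial n c =>
    rw [aeval_monomial]
    exact V.mul_mem _ _ (hV c) (V.toSubring.pow_mem hx n)

lemma val_lt_iff_const (V : ValuationSubring K) (hV : ∀ c : ℂ, algebraMap ℂ K c ∈ V) {u : K}
    {c : ℂ} (h : V.valuation (u - algebraMap ℂ K c) < 1) (hc : c ≠ 0) : V.valuation u = 1 := by
  have h1 : u = (u - algebraMap ℂ K c) + algebraMap ℂ K c := by ring
  rw [h1, Valuation.map_add_eq_of_lt_right _ (by rw [val_const_eq V hV hc]; exact h)]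
  exact val_const_eq V hV hc

lemma val_lt_of_const_zero (V : ValuationSubring K) {u : K}
    {c : ℂ} (h : V.valuation (u - algebraMap ℂ K c) < 1) (hc : c = 0) : V.valuation u < 1 := by
  rw [hc, map_zero, sub_zero] at h
  exact h

/-- reduction of polynomials at a point -/
lemma val_aeval_sub (V : ValuationSubring K) (hV : ∀ c : ℂ, algebraMap ℂ K c ∈ V) {x : K}
    (hx : x ∈ V) {a : ℂ} (ha : V.valuation (x - algebraMap ℂ K a) < 1) (p : ℂ[X]) :
    V.valuation (aeval x p - algebraMap ℂ K (p.eval a)) < 1 := by
  obtain ⟨q, hq⟩ : (X - C a) ∣ (p - C (p.eval a)) := X_sub_C_dvd_sub_C_eval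
  have h1 : aeval x p - algebraMap ℂ K (p.eval a) = (x - algebraMap ℂ K a) * aeval x q := by
    have := congrArg (aeval x) hq
    simpa using this
  rw [h1, map_mul]
  have h2 : V.valuation (aeval x q) ≤ 1 := (V.valuation_le_one_iff _).mpr (aeval_mem V hV hx q)
  exact mul_lt_one_of_lt_of_le ha h2

lemma D_aeval_mem (V : ValuationSubring K) (hV : ∀ c : ℂ, algebraMap ℂ K c ∈ V)
    (D : Derivation ℂ K K) {x : K} (hx : x ∈ V) (hDx : D x ∈ V) (p : ℂ[X]) : D (aeval x p) ∈ V := by
  rw [Derivation.map_aeval, smul_eq_mul]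
  exact V.mul_mem _ _ (aeval_mem V hV hx _) hDx

lemma D_quot_mem (V : ValuationSubring K) (D : Derivation ℂ K K) {f s₁ s₂ : K}
    (hs₂ : V.valuation s₂ = 1) (hs₁ : s₁ ∈ V) (hD₁ : D s₁ ∈ V) (hD₂ : D s₂ ∈ V)
    (hf : f * s₂ = s₁) : D f ∈ V := by
  have hs₂0 : s₂ ≠ 0 := by
    rintro rfl
    rw [map_zero] at hs₂
    exact zero_ne_one hs₂
  have hf' : f = s₁ / s₂ := by rw [← hf]; field_simp
  have h2 : s₂ ∈ V := (V.valuation_le_one_iff _).mp hs₂.le
  have h3 : s₂⁻¹ ∈ V := (V.valuation_le_one_iff _).mp (by rw [map_inv₀, hs₂, inv_one])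
  rw [hf', Derivation.leibniz_div, smul_eq_mul, smul_eq_mul, smul_eq_mul]
  exact V.mul_mem _ _ (V.toSubring.pow_mem h3 2)
    (V.toSubring.sub_mem (V.mul_mem _ _ h2 hD₁) (V.mul_mem _ _ hs₁ hD₂))

lemma val_aeval_eq_one_of_all (V : ValuationSubring K) (hV : ∀ c : ℂ, algebraMap ℂ K c ∈ V) {x : K}
    (hall : ∀ a : ℂ, V.valuation (x - algebraMap ℂ K a) = 1) (r : ℂ[X]) (hr : r ≠ 0) :
    V.valuation (aeval x r) = 1 := by
  have hcard : r.roots.card = r.natDegree := splits_iff_card_roots.mp (IsAlgClosed.splits r)
  rw [← C_leadingCoeff_mul_prod_multiset_X_sub_C hcard, map_mul, aeval_C, map_mul,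
    val_const_eq V hV (by simpa using hr), one_mul, map_multiset_prod, Multiset.map_map,
    map_multiset_prod, Multiset.map_map]
  apply Multiset.prod_eq_one
  intro u hu
  rw [Multiset.mem_map] at hu
  obtain ⟨a, _, rfl⟩ := hu
  simpa using hall a

end val

section chart

variable {K : Type} [Field K] [Algebra ℂ K]

theorem chart_stable (D : Derivation ℂ K K) (g : ℂ[X]) (x y : K) (hy0 : y ≠ 0)
    (hy : y ^ 2 = aeval x g)
    (hrep : ∀ f : K, ∃ p q r : ℂ[X], r ≠ 0 ∧ f * aeval x r = aeval x p + aeval x q * y)
    (hxt : ∀ r : ℂ[X], r ≠ 0 → aeval x r ≠ 0)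
    (V : ValuationSubring K) (hV : ∀ c : ℂ, algebraMap ℂ K c ∈ V) (hx : x ∈ V)
    (hDx : D x ∈ V) (hDy : D y ∈ V)
    (hns : ∀ a : ℂ, V.valuation (x - algebraMap ℂ K a) < 1 →
      eval a g ≠ 0 ∨ eval a (derivative g) ≠ 0) :
    ∀ f ∈ V, D f ∈ V := by
  have hyV : y ∈ V := by
    rw [← V.valuation_le_one_iff]
    have h1 : V.valuation (y ^ 2) ≤ 1 := by
      rw [hy]
      exact (V.valuation_le_one_iff _).mpr (aeval_mem V hV hx g)
    rw [map_pow] at h1
    exact (pow_le_one_iff two_ne_zero).mp h1
  have hS : ∀ p q : ℂ[X], aeval x p + aeval x q * y ∈ V := fun p q =>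
    V.add_mem _ _ (aeval_mem V hV hx p) (V.mul_mem _ _ (aeval_mem V hV hx q) hyV)
  have hDS : ∀ p q : ℂ[X], D (aeval x p + aeval x q * y) ∈ V := by
    intro p q
    rw [map_add, Derivation.leibniz, smul_eq_mul, smul_eq_mul]
    exact V.add_mem _ _ (D_aeval_mem V hV D hx hDx p)
      (V.add_mem _ _ (V.mul_mem _ _ (aeval_mem V hV hx q) hDy)
        (V.mul_mem _ _ hyV (D_aeval_mem V hV D hx hDx q)))
  by_cases hall : ∀ a : ℂ, V.valuation (x - algebraMap ℂ K a) = 1
  · intro f _
    obtain ⟨p, q, r, hr, hf⟩ := hrep f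
    exact D_quot_mem V D (val_aeval_eq_one_of_all V hV hall r hr) (hS p q) (hDS p q)
      (D_aeval_mem V hV D hx hDx r) hf
  push Not at hall
  obtain ⟨a, ha⟩ := hall
  have ha1 : V.valuation (x - algebraMap ℂ K a) < 1 := by
    refine lt_of_le_of_ne ?_ ha
    exact (V.valuation_le_one_iff _).mpr (V.toSubring.sub_mem hx (hV a))
  -- the value of y
  obtain ⟨b, hb2, hb1⟩ : ∃ b : ℂ, b ^ 2 = eval a g ∧ V.valuation (y - algebraMap ℂ K b) < 1 := by
    obtain ⟨b, hb⟩ := IsAlgClosed.exists_pow_nat_eq (eval a g) (n := 2) (by norm_num)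
    have h1 : V.valuation ((y - algebraMap ℂ K b) * (y - algebraMap ℂ K (-b))) < 1 := by
      have h2 : (y - algebraMap ℂ K b) * (y - algebraMap ℂ K (-b)) =
          aeval x g - algebraMap ℂ K (eval a g) := by
        rw [← hy, ← hb, map_neg, map_pow]
        ring
      rw [h2]
      exact val_aeval_sub V hV hx ha1 g
    rw [map_mul] at h1
    have hle1 : V.valuation (y - algebraMap ℂ K b) ≤ 1 :=
      (V.valuation_le_one_iff _).mpr (V.toSubring.sub_mem hyV (hV b))
    have hle2 : V.valuation (y - algebraMap ℂ K (-b)) ≤ 1 :=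
      (V.valuation_le_one_iff _).mpr (V.toSubring.sub_mem hyV (hV (-b)))
    rcases hle1.lt_or_eq with h3 | h3
    · exact ⟨b, hb, h3⟩
    · rw [h3, one_mul] at h1
      exact ⟨-b, by rw [neg_sq, hb], h1⟩
  have hred : ∀ p q : ℂ[X], V.valuation ((aeval x p + aeval x q * y) -
      algebraMap ℂ K (eval a p + eval a q * b)) < 1 := by
    intro p q
    have h1 : (aeval x p + aeval x q * y) - algebraMap ℂ K (eval a p + eval a q * b) =
        (aeval x p - algebraMap ℂ K (eval a p)) +
        ((aeval x q - algebraMap ℂ K (eval a q)) * y +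
          algebraMap ℂ K (eval a q) * (y - algebraMap ℂ K b)) := by
      rw [map_add, map_mul]; ring
    rw [h1]
    refine Valuation.map_add_lt _ (val_aeval_sub V hV hx ha1 p) (Valuation.map_add_lt _ ?_ ?_)
    · rw [map_mul]
      exact mul_lt_one_of_lt_of_le (val_aeval_sub V hV hx ha1 q) ((V.valuation_le_one_iff _).mpr hyV)
    · rw [map_mul]
      exact mul_lt_one_of_le_of_lt' (val_const_le V hV _) hb1
  -- the main claim by induction on the degree of the denominator
  have main : ∀ n : ℕ, ∀ p q r : ℂ[X], r ≠ 0 → r.natDegree ≤ n → ∀ f ∈ V,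
      f * aeval x r = aeval x p + aeval x q * y → D f ∈ V := by
    intro n
    induction n with
    | zero =>
      intro p q r hr hrn f _ hf
      have hr2 : V.valuation (aeval x r) = 1 := by
        rw [eq_C_of_natDegree_le_zero hrn, aeval_C]
        apply val_const_eq V hV
        intro h0
        apply hr
        rw [eq_C_of_natDegree_le_zero hrn, h0, C_0]
      exact D_quot_mem V D hr2 (hS p q) (hDS p q) (D_aeval_mem V hV D hx hDx r) hf
    | succ n ih =>
      intro p q r hr hrn f hfV hf
      by_cases hra : eval a r = 0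
      swap
      · exact D_quot_mem V D (val_lt_iff_const V hV (val_aeval_sub V hV hx ha1 r) hra)
          (hS p q) (hDS p q) (D_aeval_mem V hV D hx hDx r) hf
      have hrlt : V.valuation (aeval x r) < 1 :=
        val_lt_of_const_zero V (val_aeval_sub V hV hx ha1 r) hra
      have hnum : V.valuation (aeval x p + aeval x q * y) < 1 := by
        rw [← hf, map_mul]
        exact mul_lt_one_of_le_of_lt' ((V.valuation_le_one_iff _).mpr hfV) hrlt
      have hpq : eval a p + eval a q * b = 0 := by
        by_contra hne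
        have := val_lt_iff_const V hV (hred p q) hne
        rw [this] at hnum
        exact lt_irrefl _ hnum
      by_cases hqa : eval a q = 0
      · -- all divisible by X - a
        have hpa : eval a p = 0 := by rw [hqa, zero_mul, add_zero] at hpq; exact hpq
        obtain ⟨p₁, rfl⟩ := dvd_iff_isRoot.mpr hpa
        obtain ⟨q₁, rfl⟩ := dvd_iff_isRoot.mpr hqa
        obtain ⟨r₁, rfl⟩ := dvd_iff_isRoot.mpr hra
        have hr₁ : r₁ ≠ 0 := right_ne_zero_of_mul hr
        have hXa : aeval x (X - C a) ≠ 0 := hxt _ (X_sub_C_ne_zero a)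
        refine ih p₁ q₁ r₁ hr₁ ?_ f hfV ?_
        · rw [natDegree_mul (X_sub_C_ne_zero a) hr₁, natDegree_X_sub_C] at hrn
          omega
        · apply mul_left_cancel₀ hXa
          simp only [map_mul] at hf ⊢
          linear_combination hf
      · by_cases hb0 : b = 0
        · -- ramified point
          exfalso
          have hga : eval a g = 0 := by rw [← hb2, hb0]; ring
          have hg'a : eval a (derivative g) ≠ 0 := (hns a ha1).resolve_left (not_not.mpr hga)
          have hpa : eval a p = 0 := by rw [hb0, mul_zero, add_zero] at hpq; exact hpq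
          obtain ⟨g₁, hg₁⟩ := dvd_iff_isRoot.mpr hga
          have hg₁a : eval a g₁ ≠ 0 := by
            rw [hg₁] at hg'a
            simpa using hg'a
          obtain ⟨p₁, rfl⟩ := dvd_iff_isRoot.mpr hpa
          obtain ⟨r₁, rfl⟩ := dvd_iff_isRoot.mpr hra
          have hXg : aeval x (X - C a) * aeval x g₁ = y ^ 2 := by
            rw [hy, hg₁, map_mul]
          have hkey : f * (y * aeval x r₁) = aeval x (q * g₁) + aeval x p₁ * y := by
            apply mul_left_cancel₀ hy0
            simp only [map_mul] at hf ⊢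
            linear_combination (aeval x g₁) * hf + (aeval x p₁ - f * aeval x r₁) * hXg
          have hv1 : V.valuation (f * (y * aeval x r₁)) < 1 := by
            rw [map_mul, map_mul]
            refine mul_lt_one_of_le_of_lt' ((V.valuation_le_one_iff _).mpr hfV) ?_
            refine mul_lt_one_of_lt_of_le (val_lt_of_const_zero V hb1 hb0) ?_
            exact (V.valuation_le_one_iff _).mpr (aeval_mem V hV hx r₁)
          rw [hkey] at hv1
          have hv2 := val_lt_iff_const V hV (hred (q * g₁) p₁) (by
            rw [hb0, mul_zero, add_zero, eval_mul]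
            exact mul_ne_zero hqa hg₁a)
          rw [hv2] at hv1
          exact lt_irrefl _ hv1
        · -- unramified point
          have hconj : eval a p + eval a (-q) * b ≠ 0 := by
            rw [eval_neg]
            intro h0
            have h1 : 2 * (eval a q * b) = 0 := by linear_combination hpq - h0
            exact mul_ne_zero two_ne_zero (mul_ne_zero hqa hb0) h1
          set w : K := aeval x p + aeval x (-q) * y with hw
          have hwv : V.valuation w = 1 := val_lt_iff_const V hV (hred p (-q)) hconj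
          set N : ℂ[X] := p ^ 2 - q ^ 2 * g with hN
          have hfw : f * (aeval x r * w) = aeval x N := by
            rw [hN, hw]
            simp only [map_sub, map_mul, map_pow, map_neg]
            rw [← hy]
            linear_combination (aeval x p - aeval x q * y) * hf
          -- divide by the gcd
          obtain ⟨N₁, r₁, hcop, hN₁, hr₁⟩ : ∃ N₁ r₁ : ℂ[X], (eval a N₁ ≠ 0 ∨ eval a r₁ ≠ 0) ∧
              (∃ e : ℂ[X], e ≠ 0 ∧ N = e * N₁ ∧ r = e * r₁) ∧ r₁ ≠ 0 := by
            have he : EuclideanDomain.gcd N r ≠ 0 := by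
              intro h0
              exact hr (EuclideanDomain.gcd_eq_zero_iff.mp h0).2
            have hd1 : EuclideanDomain.gcd N r * (N / EuclideanDomain.gcd N r) = N :=
              EuclideanDomain.mul_div_cancel' he (EuclideanDomain.gcd_dvd_left _ _)
            have hd2 : EuclideanDomain.gcd N r * (r / EuclideanDomain.gcd N r) = r :=
              EuclideanDomain.mul_div_cancel' he (EuclideanDomain.gcd_dvd_right _ _)
            refine ⟨N / EuclideanDomain.gcd N r, r / EuclideanDomain.gcd N r, ?_,
              ⟨EuclideanDomain.gcd N r, he, hd1.symm, hd2.symm⟩, ?_⟩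
            · by_contra hcon
              push Not at hcon
              have huv : N / EuclideanDomain.gcd N r * EuclideanDomain.gcdA N r +
                  r / EuclideanDomain.gcd N r * EuclideanDomain.gcdB N r = 1 := by
                apply mul_left_cancel₀ he
                rw [mul_add, ← mul_assoc, ← mul_assoc, hd1, hd2, mul_one]
                exact (EuclideanDomain.gcd_eq_gcd_ab N r).symm
              have := congrArg (eval a) huv
              rw [eval_add, eval_mul, eval_mul, hcon.1, hcon.2, zero_mul, zero_mul, add_zero,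
                eval_one] at this
              exact zero_ne_one this
            · intro h0
              rw [h0, mul_zero] at hd2
              exact hr hd2.symm
          obtain ⟨e, he, hNe, hre⟩ := hN₁
          have hes : aeval x e ≠ 0 := hxt e he
          have hfw1 : f * (aeval x r₁ * w) = aeval x N₁ := by
            apply mul_left_cancel₀ hes
            rw [hNe, hre, map_mul, map_mul] at hfw
            linear_combination hfw
          have hr₁a : eval a r₁ ≠ 0 := by
            intro h0
            have hN₁a : eval a N₁ ≠ 0 := hcop.resolve_right (not_not.mpr h0)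
            have h1 : V.valuation (aeval x N₁) = 1 :=
              val_lt_iff_const V hV (val_aeval_sub V hV hx ha1 N₁) hN₁a
            rw [← hfw1, map_mul, map_mul, hwv, mul_one] at h1
            have h2 : V.valuation f * V.valuation (aeval x r₁) < 1 :=
              mul_lt_one_of_le_of_lt' ((V.valuation_le_one_iff _).mpr hfV)
                (val_lt_of_const_zero V (val_aeval_sub V hV hx ha1 r₁) h0)
            rw [h1] at h2
            exact lt_irrefl _ h2
          have hr₁v : V.valuation (aeval x r₁) = 1 :=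
            val_lt_iff_const V hV (val_aeval_sub V hV hx ha1 r₁) hr₁a
          refine D_quot_mem V D (s₁ := aeval x N₁) (s₂ := aeval x r₁ * w) ?_
            (aeval_mem V hV hx N₁) (D_aeval_mem V hV D hx hDx N₁) ?_ hfw1
          · rw [map_mul, hr₁v, hwv, mul_one]
          · rw [Derivation.leibniz, smul_eq_mul, smul_eq_mul]
            exact V.add_mem _ _ (V.mul_mem _ _ (aeval_mem V hV hx r₁) (hDS p (-q)))
              (V.mul_mem _ _ (hS p (-q)) (D_aeval_mem V hV D hx hDx r₁))
  intro f hfV
  obtain ⟨p, q, r, hr, hf⟩ := hrep f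
  exact main r.natDegree p q r hr le_rfl f hfV hf

end chart

end

end Pool.Agent.Helper268.Cfd
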