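import Pool.Agent.Helper268.Cfd4

set_option autoImplicit false

open Polynomial

namespace Pool.Agent.Helper268.Cfd

noncomputable section

section deriv

theorem exists_derivation {R K : Type} [CommRing R] [IsDomain R] [Field K] [Algebra ℂ R]
    [Algebra R K] [Algebra ℂ K] [IsScalarTower ℂ R K] [IsFractionRing R K]
    (e : R →+* DualNumber K) (he : ∀ r, (e r).fst = algebraMap R K r)
    (hc : ∀ c : ℂ, (e (algebraMap ℂ R c)).snd = 0) :
    ∃ D : Derivation ℂ K K, ∀ r, D (algebraMap R K r) = (e r).snd := by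
  have hunit : ∀ r : nonZeroDivisors R, IsUnit (e r) := by
    intro r
    rw [TrivSqZeroExt.isUnit_iff_isUnit_fst, he, isUnit_iff_ne_zero]
    exact IsFractionRing.to_map_ne_zero_of_mem_nonZeroDivisors r.2
  set E : K →+* DualNumber K := IsLocalization.lift hunit with hE
  have hEr : ∀ r : R, E (algebraMap R K r) = e r := fun r => IsLocalization.lift_eq hunit r
  have hfst : ∀ k : K, (E k).fst = k := by
    intro k
    obtain ⟨a, b, hb, rfl⟩ := IsFractionRing.div_surjective (A := R) k
    have hb0 : algebraMap R K b ≠ 0 := IsFractionRing.to_map_ne_zero_of_mem_nonZeroDivisors hb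
    have h1 : E (algebraMap R K a / algebraMap R K b) * E (algebraMap R K b) =
        E (algebraMap R K a) := by
      rw [← map_mul, div_mul_cancel₀ _ hb0]
    have h2 := congrArg TrivSqZeroExt.fst h1
    rw [TrivSqZeroExt.fst_mul, hEr, hEr, he, he] at h2
    exact eq_div_of_mul_eq hb0 h2
  have hmul : ∀ a b : K, (E (a * b)).snd = a * (E b).snd + b * (E a).snd := by
    intro a b
    rw [map_mul, TrivSqZeroExt.snd_mul, hfst, hfst]
    simp [mul_comm]
  have hconst : ∀ c : ℂ, (E (algebraMap ℂ K c)).snd = 0 := by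
    intro c
    rw [IsScalarTower.algebraMap_apply ℂ R K, hEr, hc]
  refine ⟨Derivation.mk' { toFun := fun k => (E k).snd, map_add' := ?_, map_smul' := ?_ } ?_, ?_⟩
  · intro a b
    simp
  · intro c k
    rw [Algebra.smul_def, hmul, hconst, mul_zero, add_zero, Algebra.smul_def]
    rfl
  · intro a b
    exact hmul a b
  · intro r
    change (E (algebraMap R K r)).snd = _
    rw [hEr]

/-- a nonconstant element has nonzero derivative -/
theorem D_ne_zero {K : Type} [Field K] [Algebra ℂ K] (D : Derivation ℂ K K) (x : K)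
    (halg : Algebra.IsAlgebraic (Algebra.adjoin ℂ ({x} : Set K)) K) (hDx : D x ≠ 0)
    (x₀ : K) (hx₀ : Transcendental ℂ x₀) : D x₀ ≠ 0 := by
  intro h0
  have _ : CharZero K := charZero_of_injective_algebraMap (algebraMap ℂ K).injective
  have htr : Algebra.trdeg ℂ K ≤ Cardinal.mk ({x} : Set K) :=
    Algebra.IsAlgebraic.trdeg_le_cardinalMk ℂ ({x} : Set K)
  have hind : AlgebraicIndependent ℂ (fun _ : Unit => x₀) := by
    rw [algebraicIndependent_unique_type_iff]
    exact hx₀
  have hb := hind.isTranscendenceBasis_of_trdeg_le_of_finite (by simpa using htr)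
  have halg0 := hb.isAlgebraic
  rw [Set.range_const] at halg0
  set S := Algebra.adjoin ℂ ({x₀} : Set K) with hS
  set E := IntermediateField.adjoin ℂ ({x₀} : Set K) with hE
  have hSE : S ≤ E.toSubalgebra := IntermediateField.algebra_adjoin_le_adjoin ℂ _
  have hDE : ∀ e ∈ E, D e = 0 := by
    intro e he
    induction he using IntermediateField.adjoin_induction with
    | mem y hy =>
      rw [Set.mem_singleton_iff] at hy
      rw [hy, h0]
    | algebraMap c => exact D.map_algebraMap c
    | add a b _ _ ha hb => rw [map_add, ha, hb, add_zero]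
    | inv a _ ha => rw [Derivation.leibniz_inv, ha, smul_zero]
    | mul a b _ _ ha hb => rw [Derivation.leibniz, ha, hb, smul_zero, smul_zero, add_zero]
  have hxalg : IsAlgebraic E x := by
    obtain ⟨p, hp, hpx⟩ := halg0.isAlgebraic x
    refine ⟨p.map (Subalgebra.inclusion hSE).toRingHom, ?_, ?_⟩
    · rw [Ne, Polynomial.map_eq_zero_iff]
      · exact hp
      · exact Subalgebra.inclusion_injective hSE
    · rw [aeval_def, eval₂_map]
      exact hpx
  let DE : Derivation E K K := Derivation.mk'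
    { toFun := fun k => D k
      map_add' := fun a b => map_add D a b
      map_smul' := by
        intro e k
        rw [Algebra.smul_def, Derivation.leibniz]
        have : D (algebraMap E K e) = 0 := hDE _ e.2
        rw [this, smul_zero, add_zero, smul_eq_mul]
        rfl } (fun a b => D.leibniz a b)
  have hDEx : DE x = D x := rfl
  have hsep : (minpoly E x).Separable := (minpoly.irreducible hxalg.isIntegral).separable
  have h1 := DE.map_aeval (minpoly E x) x
  rw [minpoly.aeval, map_zero, hDEx, smul_eq_mul] at h1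
  have h2 := hsep.aeval_derivative_ne_zero (minpoly.aeval E x)
  exact mul_ne_zero h2 hDx h1.symm

end deriv

section W

open WeierstrassCurve WeierstrassCurve.Affine

variable (W : WeierstrassCurve ℂ)

lemma W_coprime (hW : W.Δ ≠ 0) :
    IsCoprime (cub W.b₂ (2 * W.b₄) W.b₆) (derivative (cub W.b₂ (2 * W.b₄) W.b₆)) := by
  refine (Polynomial.isCoprime_iff_aeval_ne_zero_of_isAlgClosed (k := ℂ) (K := ℂ) _ _).mpr ?_
  intro r
  by_contra hcon
  push Not at hcon
  obtain ⟨h1, h2⟩ := hcon
  rw [aeval_cub (K := ℂ)] at h1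
  rw [aeval_cub' (K := ℂ)] at h2
  simp only [Algebra.algebraMap_self, RingHom.id_apply] at h1 h2
  apply hW
  have h3 := W.twoTorsionPolynomial_discr
  have h4 : W.twoTorsionPolynomial.discr = 0 := by
    unfold twoTorsionPolynomial Cubic.discr
    dsimp only
    have hc : 2 * W.b₄ = -12 * r ^ 2 - 2 * W.b₂ * r := by linear_combination h2
    have hd : W.b₆ = 8 * r ^ 3 + W.b₂ * r ^ 2 := by
      rw [hc] at h1
      linear_combination h1
    rw [hc, hd]
    ring
  rw [h4] at h3
  have : (16 : ℂ) ≠ 0 := by norm_num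
  exact (mul_eq_zero.mp h3.symm).resolve_left this

lemma eqn_of_hom {K : Type} [Field K] [Algebra ℂ K] (x y₀ : K) (j : ℂ[X][X] →+* K)
    (hj1 : ∀ p : ℂ[X], j (C p) = aeval x p) (hj2 : j X = y₀)
    (hj3 : j W.toAffine.polynomial = 0) :
    y₀ ^ 2 + (algebraMap ℂ K W.a₁ * x + algebraMap ℂ K W.a₃) * y₀ -
      (x ^ 3 + algebraMap ℂ K W.a₂ * x ^ 2 + algebraMap ℂ K W.a₄ * x + algebraMap ℂ K W.a₆) = 0 := by
  unfold WeierstrassCurve.Affine.polynomial at hj3
  rw [map_sub, map_add, map_pow, map_mul, hj1, hj1, hj2] at hj3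
  simpa using hj3

lemma eval₂_dual {K : Type} [Field K] [Algebra ℂ K] (x y₀ : K)
    (hEq : y₀ ^ 2 + (algebraMap ℂ K W.a₁ * x + algebraMap ℂ K W.a₃) * y₀ -
      (x ^ 3 + algebraMap ℂ K W.a₂ * x ^ 2 + algebraMap ℂ K W.a₄ * x + algebraMap ℂ K W.a₆) = 0) :
    eval₂ (aeval (R := ℂ) (TrivSqZeroExt.inl x +
      TrivSqZeroExt.inr (2 * (2 * y₀ + algebraMap ℂ K W.a₁ * x + algebraMap ℂ K W.a₃)) :
        DualNumber K)).toRingHom
      (TrivSqZeroExt.inl y₀ + TrivSqZeroExt.inr (2 * (3 * x ^ 2 + 2 * algebraMap ℂ K W.a₂ * x +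
    algebraMap ℂ K W.a₄ - algebraMap ℂ K W.a₁ * y₀))) W.toAffine.polynomial = 0 := by
  unfold WeierstrassCurve.Affine.polynomial
  simp only [eval₂_sub, eval₂_add, eval₂_mul, eval₂_pow, eval₂_C, eval₂_X]
  simp only [AlgHom.toRingHom_eq_coe, RingHom.coe_coe, map_add, map_mul, map_pow, aeval_C, aeval_X]
  have hf : ∀ c : ℂ, (algebraMap ℂ (DualNumber K) c).fst = algebraMap ℂ K c := fun _ => rfl
  have hs : ∀ c : ℂ, (algebraMap ℂ (DualNumber K) c).snd = 0 := fun _ => rfl
  apply TrivSqZeroExt.ext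
  · simp [pow_succ, hf]
    linear_combination hEq
  · simp [pow_succ, hf, hs]
    ring

theorem exists_ell (hW : W.Δ ≠ 0) :
    ∃ (D : Derivation ℂ W.toAffine.FunctionField W.toAffine.FunctionField)
      (x y : W.toAffine.FunctionField), Ell D W.b₂ (2 * W.b₄) W.b₆ x y ∧
      Algebra.IsAlgebraic (Algebra.adjoin ℂ ({x} : Set W.toAffine.FunctionField))
        W.toAffine.FunctionField := by
  set x : W.toAffine.FunctionField := algebraMap W.toAffine.CoordinateRing _
    (algebraMap ℂ[X] W.toAffine.CoordinateRing X) with hx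
  set y₀ : W.toAffine.FunctionField := algebraMap W.toAffine.CoordinateRing _
    (CoordinateRing.mk W.toAffine X) with hy₀
  set y : W.toAffine.FunctionField := 2 * y₀ + algebraMap ℂ _ W.a₁ * x + algebraMap ℂ _ W.a₃ with hy
  have hxp : ∀ p : ℂ[X], algebraMap W.toAffine.CoordinateRing W.toAffine.FunctionField
      (algebraMap ℂ[X] W.toAffine.CoordinateRing p) = aeval x p := by
    intro p
    have : ((IsScalarTower.toAlgHom ℂ W.toAffine.CoordinateRing W.toAffine.FunctionField).comp
      (IsScalarTower.toAlgHom ℂ ℂ[X] W.toAffine.CoordinateRing)) = aeval x := by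
      apply Polynomial.algHom_ext
      simp [hx]
    exact DFunLike.congr_fun this p
  have hEq := eqn_of_hom W x y₀ ((algebraMap W.toAffine.CoordinateRing
    W.toAffine.FunctionField).comp (CoordinateRing.mk W.toAffine)) (fun p => hxp p) rfl
    (by rw [RingHom.comp_apply, AdjoinRoot.mk_self, map_zero])
  have hYsq : y ^ 2 = aeval x (cub W.b₂ (2 * W.b₄) W.b₆) := by
    rw [aeval_cub, hy]
    unfold WeierstrassCurve.b₂ WeierstrassCurve.b₄ WeierstrassCurve.b₆
    simp only [map_add, map_mul, map_pow, am4, am2]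
    linear_combination 4 * hEq
  have hev := eval₂_dual W x y₀ hEq
  set u₁ : DualNumber W.toAffine.FunctionField := TrivSqZeroExt.inl x +
      TrivSqZeroExt.inr (2 * (2 * y₀ + algebraMap ℂ _ W.a₁ * x + algebraMap ℂ _ W.a₃)) with hu₁
  set u₂ : DualNumber W.toAffine.FunctionField := TrivSqZeroExt.inl y₀ +
    TrivSqZeroExt.inr (2 * (3 * x ^ 2 + 2 * algebraMap ℂ _ W.a₂ * x +
    algebraMap ℂ _ W.a₄ - algebraMap ℂ _ W.a₁ * y₀)) with hu₂
  set e : W.toAffine.CoordinateRing →+* DualNumber W.toAffine.FunctionField :=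
    AdjoinRoot.lift _ _ hev with he
  have he1 : ∀ p : ℂ[X], e (algebraMap ℂ[X] W.toAffine.CoordinateRing p) = aeval u₁ p := by
    intro p
    rw [he, AdjoinRoot.algebraMap_eq, AdjoinRoot.lift_of]
    rfl
  have he2 : e (CoordinateRing.mk W.toAffine X) = u₂ := by
    rw [he]
    exact AdjoinRoot.lift_root hev
  have hfst1 : ∀ p : ℂ[X], (aeval u₁ p).fst = aeval x p := by
    intro p
    have h1 := Polynomial.aeval_algHom_apply
      (TrivSqZeroExt.fstHom ℂ W.toAffine.FunctionField W.toAffine.FunctionField) u₁ p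
    have h2 : (TrivSqZeroExt.fstHom ℂ W.toAffine.FunctionField W.toAffine.FunctionField) u₁ = x := by
      simp [hu₁]
    rw [h2] at h1
    exact h1.symm
  have hrepR : ∀ r : W.toAffine.CoordinateRing, ∃ p q : ℂ[X],
      r = algebraMap ℂ[X] W.toAffine.CoordinateRing p +
        algebraMap ℂ[X] W.toAffine.CoordinateRing q * CoordinateRing.mk W.toAffine X := by
    intro r
    obtain ⟨p, q, h⟩ := CoordinateRing.exists_smul_basis_eq r
    refine ⟨p, q, ?_⟩
    rw [← h, Algebra.smul_def, Algebra.smul_def, mul_one]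
  have hfst : ∀ r, (e r).fst = algebraMap W.toAffine.CoordinateRing W.toAffine.FunctionField r := by
    intro r
    obtain ⟨p, q, rfl⟩ := hrepR r
    rw [map_add, map_mul, he1, he1, he2, map_add, map_mul, hxp, hxp, TrivSqZeroExt.fst_add,
      TrivSqZeroExt.fst_mul, hfst1, hfst1, ← hy₀]
    simp [hu₂]
  have hcst : ∀ c : ℂ, (e (algebraMap ℂ W.toAffine.CoordinateRing c)).snd = 0 := by
    intro c
    rw [IsScalarTower.algebraMap_apply ℂ ℂ[X] W.toAffine.CoordinateRing, he1]
    rw [Polynomial.algebraMap_apply, aeval_C]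
    rfl
  obtain ⟨D, hD⟩ := exists_derivation e hfst hcst
  have hDx : D x = 2 * y := by
    rw [hx, hD, he1, aeval_X, hu₁, hy]
    simp
  have hDy₀ : D y₀ = 2 * (3 * x ^ 2 + 2 * algebraMap ℂ _ W.a₂ * x +
    algebraMap ℂ _ W.a₄ - algebraMap ℂ _ W.a₁ * y₀) := by
    have h1 := hD (CoordinateRing.mk W.toAffine X)
    rw [he2, ← hy₀] at h1
    rw [h1, hu₂]
    simp
  have hDy : D y = aeval x (derivative (cub W.b₂ (2 * W.b₄) W.b₆)) := by
    rw [aeval_cub', hy]
    have h2 : (2 : W.toAffine.FunctionField) = algebraMap ℂ _ 2 := am2.symm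
    have h3 : D (2 * y₀) = 2 * D y₀ := by
      rw [Derivation.leibniz]
      rw [h2, D.map_algebraMap, smul_zero, add_zero, smul_eq_mul]
    rw [map_add, map_add, h3, Derivation.leibniz, D.map_algebraMap, D.map_algebraMap, hDx, hDy₀, hy]
    unfold WeierstrassCurve.b₂ WeierstrassCurve.b₄
    simp only [map_add, map_mul, map_pow, am4, am2, smul_eq_mul]
    ring
  have hinjR : Function.Injective (algebraMap W.toAffine.CoordinateRing W.toAffine.FunctionField) :=
    IsFractionRing.injective _ _
  have hinjP : Function.Injective (algebraMap ℂ[X] W.toAffine.CoordinateRing) :=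
    FaithfulSMul.algebraMap_injective _ _
  have hxt : ∀ r : ℂ[X], r ≠ 0 → aeval x r ≠ 0 := by
    intro r hr h0
    rw [← hxp, map_eq_zero_iff _ hinjR, map_eq_zero_iff _ hinjP] at h0
    exact hr h0
  have hrep : ∀ f : W.toAffine.FunctionField, ∃ p q r : ℂ[X], r ≠ 0 ∧
      f * aeval x r = aeval x p + aeval x q * y := by
    intro f
    obtain ⟨a, b, hb, rfl⟩ := IsFractionRing.div_surjective (A := W.toAffine.CoordinateRing) f
    have hb0 : b ≠ 0 := nonZeroDivisors.ne_zero hb
    have hb1 : algebraMap W.toAffine.CoordinateRing W.toAffine.FunctionField b ≠ 0 := by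
      rwa [Ne, map_eq_zero_iff _ hinjR]
    have _ : Module.Finite ℂ[X] W.toAffine.CoordinateRing :=
      Module.Finite.of_basis (CoordinateRing.basis W.toAffine)
    obtain ⟨c, d, hd, hcd⟩ := Algebra.IsAlgebraic.exists_smul_eq_mul ℂ[X] a hb0
    obtain ⟨p, q, rfl⟩ := hrepR c
    refine ⟨p - C (1/2) * (C W.a₁ * X + C W.a₃) * q, C (1/2) * q, d, hd, ?_⟩
    have h1 := congrArg (algebraMap W.toAffine.CoordinateRing W.toAffine.FunctionField) hcd
    rw [Algebra.smul_def, map_mul, map_mul, map_add, map_mul, hxp, hxp, hxp, ← hy₀] at h1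
    simp only [map_sub, map_mul, map_add, aeval_C, aeval_X]
    have h2 : algebraMap ℂ W.toAffine.FunctionField (1/2) * 2 = 1 := by
      have h3 : algebraMap ℂ W.toAffine.FunctionField (1/2) *
          algebraMap ℂ W.toAffine.FunctionField 2 = 1 := by
        rw [← map_mul]
        norm_num
      rwa [am2] at h3
    rw [div_mul_eq_mul_div, div_eq_iff hb1, mul_comm _ (aeval x d), h1, hy]
    linear_combination (-(aeval x q * y₀ *
      algebraMap W.toAffine.CoordinateRing W.toAffine.FunctionField b)) * h2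
  refine ⟨D, x, y, ⟨hxt, hYsq, W_coprime W hW, hrep, hDx, hDy⟩, ?_⟩
  constructor
  intro f
  obtain ⟨p, q, r, hr, hf⟩ := hrep f
  set S := Algebra.adjoin ℂ ({x} : Set W.toAffine.FunctionField) with hS
  have hmem : ∀ p : ℂ[X], IsAlgebraic S (aeval x p) := by
    intro p
    have hp : aeval x p ∈ S := by
      rw [hS, Algebra.adjoin_singleton_eq_range_aeval]
      exact ⟨p, rfl⟩
    exact isAlgebraic_algebraMap (⟨aeval x p, hp⟩ : S)
  have hyalg : IsAlgebraic S y := by
    apply IsAlgebraic.of_pow (n := 2) two_pos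
    rw [hYsq]
    exact hmem _
  have hf' : f = (aeval x p + aeval x q * y) * (aeval x r)⁻¹ := by
    rw [← hf, mul_assoc, mul_inv_cancel₀ (hxt r hr), mul_one]
  rw [hf']
  exact ((hmem p).add ((hmem q).mul hyalg)).mul (hmem r).inv

end W

end

end Pool.Agent.Helper268.Cfd
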