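import Pool.Agent.Helper268.Cfd7

set_option autoImplicit false

open Polynomial

namespace Pool.Agent.Helper268.Cfd

noncomputable section

/-- the counterexample function -/
def Af : RatFunc ℂ := algebraMap ℂ[X] (RatFunc ℂ) Np / algebraMap ℂ[X] (RatFunc ℂ) Qp

/-- the function `B = X³/(X+1)²` -/
def Bf : RatFunc ℂ := algebraMap ℂ[X] (RatFunc ℂ) (X ^ 3) / algebraMap ℂ[X] (RatFunc ℂ) ((X + 1) ^ 2)

lemma F_ne_zero {p : ℂ[X]} (hp : p ≠ 0) : algebraMap ℂ[X] (RatFunc ℂ) p ≠ 0 :=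
  RatFunc.algebraMap_ne_zero hp

lemma quot_ne_C {p q : ℂ[X]} (hq : q ≠ 0) (h : ∀ c : ℂ, p ≠ C c * q) (c : ℂ) :
    algebraMap ℂ[X] (RatFunc ℂ) p / algebraMap ℂ[X] (RatFunc ℂ) q ≠ algebraMap ℂ (RatFunc ℂ) c := by
  intro h0
  rw [div_eq_iff (F_ne_zero hq)] at h0
  have h1 : algebraMap ℂ (RatFunc ℂ) c = algebraMap ℂ[X] (RatFunc ℂ) (C c) := rfl
  rw [h1, ← map_mul] at h0
  exact h c (RatFunc.algebraMap_injective ℂ h0)

lemma natDegree_le_num {p q : ℂ[X]} (hq : q ≠ 0) (hp : p ≠ 0) (hcop : IsCoprime p q) :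
    p.natDegree ≤ (algebraMap ℂ[X] (RatFunc ℂ) p / algebraMap ℂ[X] (RatFunc ℂ) q).num.natDegree := by
  set f := algebraMap ℂ[X] (RatFunc ℂ) p / algebraMap ℂ[X] (RatFunc ℂ) q with hf
  have hf0 : f ≠ 0 := div_ne_zero (F_ne_zero hp) (F_ne_zero hq)
  have h1 : f.num * q = p * f.denom := by
    apply RatFunc.algebraMap_injective ℂ
    rw [map_mul, map_mul]
    have h2 := RatFunc.num_div_denom f
    rw [hf] at h2 ⊢
    rw [div_eq_div_iff (F_ne_zero (RatFunc.denom_ne_zero _)) (F_ne_zero hq)] at h2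
    exact h2
  have h3 : p ∣ f.num := hcop.dvd_of_dvd_mul_right ⟨f.denom, h1⟩
  exact natDegree_le_of_dvd h3 (RatFunc.num_ne_zero hf0)

lemma cop_NQ : IsCoprime Np Qp := by
  refine ⟨C (1/9) * 256, C (1/9) * (-(64 * X ^ 3 + 336 * X ^ 2 + 516 * X - 3)), ?_⟩
  have h : 256 * Np + (-(64 * X ^ 3 + 336 * X ^ 2 + 516 * X - 3)) * Qp = C 9 := by
    unfold Np Qp
    rw [show (C 9 : ℂ[X]) = 9 from rfl]
    ring
  rw [mul_assoc, mul_assoc, ← mul_add, h, ← C_mul]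
  norm_num

lemma finrank_A : 2 ≤ Module.finrank (IntermediateField.adjoin ℂ ({Af} : Set (RatFunc ℂ)))
    (RatFunc ℂ) := by
  rw [RatFunc.finrank_eq_max_natDegree]
  refine le_trans ?_ (le_max_left _ _)
  refine le_trans ?_ (natDegree_le_num Qp_ne_zero Np_ne_zero cop_NQ)
  rw [natDegree_Np]
  norm_num

lemma X1_ne_zero : (X + 1 : ℂ[X]) ≠ 0 := by
  rw [← C_1]
  exact X_add_C_ne_zero 1

lemma cop_B : IsCoprime (X ^ 3 : ℂ[X]) ((X + 1) ^ 2) := by
  apply IsCoprime.pow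
  exact ⟨-1, 1, by ring⟩

lemma finrank_B : 2 ≤ Module.finrank (IntermediateField.adjoin ℂ ({Bf} : Set (RatFunc ℂ)))
    (RatFunc ℂ) := by
  rw [RatFunc.finrank_eq_max_natDegree]
  refine le_trans ?_ (le_max_left _ _)
  refine le_trans ?_ (natDegree_le_num (pow_ne_zero _ X1_ne_zero) (pow_ne_zero _ X_ne_zero) cop_B)
  rw [natDegree_X_pow]
  norm_num

lemma Bf_ne_const (c : ℂ) : Bf ≠ algebraMap ℂ (RatFunc ℂ) c := by
  apply quot_ne_C (pow_ne_zero _ X1_ne_zero)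
  intro c hc
  have h1 := congrArg natDegree hc
  rw [natDegree_X_pow] at h1
  have h2 : (C c * (X + 1) ^ 2 : ℂ[X]).natDegree ≤ 2 := by
    refine (natDegree_C_mul_le _ _).trans ?_
    rw [natDegree_pow, ← C_1, natDegree_X_add_C]
  omega

lemma Af_ne_const (c : ℂ) : Af ≠ algebraMap ℂ (RatFunc ℂ) c := by
  apply quot_ne_C Qp_ne_zero
  intro c hc
  have h1 := congrArg natDegree hc
  rw [natDegree_Np] at h1
  have h2 : (C c * Qp : ℂ[X]).natDegree ≤ 1 := by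
    refine (natDegree_C_mul_le _ _).trans ?_
    rw [natDegree_Qp]
  omega

lemma trans_of_ne_const {f : RatFunc ℂ} (h : ∀ c : ℂ, f ≠ algebraMap ℂ (RatFunc ℂ) c) :
    Transcendental ℂ f :=
  RatFunc.transcendental_of_ne_C f (fun ⟨c, hc⟩ => h c hc)

/-- polynomials in the generator do not vanish -/
lemma pol_ne_zero (p : ℂ[X]) (hp : p ≠ 0) : aeval (RatFunc.X : RatFunc ℂ) p ≠ 0 := ratX_hxt p hp

lemma lin_ne (a b : ℂ) (ha : a ≠ 0) :
    algebraMap ℂ (RatFunc ℂ) a * RatFunc.X + algebraMap ℂ (RatFunc ℂ) b ≠ 0 := by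
  have h := pol_ne_zero (C a * X + C b) (by
    intro h0
    have := congrArg (fun p => coeff p 1) h0
    simp at this
    exact ha this)
  simpa using h

end

end Pool.Agent.Helper268.Cfd
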