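import Pool.Agent.Helper268.Cfd8

set_option autoImplicit false

open Polynomial

namespace Pool.Agent.Helper268.Cfd

noncomputable section

lemma fo2 : algebraMap ℂ[X] (RatFunc ℂ) 2 = 2 := map_ofNat _ 2
lemma fo3 : algebraMap ℂ[X] (RatFunc ℂ) 3 = 3 := map_ofNat _ 3
lemma fo4 : algebraMap ℂ[X] (RatFunc ℂ) 4 = 4 := map_ofNat _ 4
lemma fo6 : algebraMap ℂ[X] (RatFunc ℂ) 6 = 6 := map_ofNat _ 6
lemma fo12 : algebraMap ℂ[X] (RatFunc ℂ) 12 = 12 := map_ofNat _ 12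

lemma Af_eq : Af = (RatFunc.X ^ 4 + 6 * RatFunc.X ^ 3 + 12 * RatFunc.X ^ 2 + 6 * RatFunc.X) /
    (4 * RatFunc.X + 3) := by
  unfold Af Np Qp
  simp [RatFunc.algebraMap_X, fo3, fo4, fo6, fo12]

lemma Bf_eq : Bf = RatFunc.X ^ 3 / (RatFunc.X + 1) ^ 2 := by
  unfold Bf
  simp [RatFunc.algebraMap_X]

lemma ne4 : (4 * RatFunc.X + 3 : RatFunc ℂ) ≠ 0 := by
  have h := pol_ne_zero Qp Qp_ne_zero
  unfold Qp at h
  simpa [fo3, fo4] using h

lemma ne_monic (p : ℂ[X]) (n : ℕ) (c : ℂ) (hc : c ≠ 0) (h : p.coeff n = c) :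
    aeval (RatFunc.X : RatFunc ℂ) p ≠ 0 := by
  apply pol_ne_zero
  rintro rfl
  simp at h
  exact hc h.symm

lemma ne_x1 : (RatFunc.X + 1 : RatFunc ℂ) ≠ 0 := by
  have h := ne_monic (X + 1) 1 1 one_ne_zero (by simp [coeff_one])
  simpa using h

lemma ne_x3 : (RatFunc.X + 3 : RatFunc ℂ) ≠ 0 := by
  have h := ne_monic (X + 3) 1 1 one_ne_zero (by simp [coeff_ofNat_succ])
  simpa [fo3] using h

lemma ne_xm1 : (RatFunc.X - 1 : RatFunc ℂ) ≠ 0 := by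
  have h := ne_monic (X - 1) 1 1 one_ne_zero (by simp [coeff_one])
  simpa using h

lemma ne_2x3 : (2 * RatFunc.X ^ 3 + 1 : RatFunc ℂ) ≠ 0 := by
  have h := ne_monic (2 * X ^ 3 + 1) 0 1 one_ne_zero (by simp)
  simpa [fo2] using h

lemma ne_x3m1 : (RatFunc.X ^ 3 - 1 : RatFunc ℂ) ≠ 0 := by
  have h := ne_monic (X ^ 3 - 1) 0 (-1) (by norm_num) (by simp)
  simpa using h

lemma ne_x2x1 : (RatFunc.X ^ 2 + RatFunc.X + 1 : RatFunc ℂ) ≠ 0 := by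
  have h := ne_monic (X ^ 2 + X + 1) 0 1 one_ne_zero (by simp)
  simpa using h

/-- `B ∘ A = C ∘ B` -/
lemma semiconj (φ : RatFunc ℂ →ₐ[ℂ] RatFunc ℂ) (hφ : φ RatFunc.X = Af) :
    φ Bf = Bf * (Bf + 6) ^ 3 / (4 * Bf + 27) := by
  have h4 := ne4
  have h1 := ne_x1
  have h3 := ne_x3
  have h0 : (RatFunc.X : RatFunc ℂ) ≠ 0 := RatFunc.X_ne_zero
  have e1 : φ Bf = Af ^ 3 / (Af + 1) ^ 2 := by
    rw [Bf_eq, map_div₀, map_pow, map_pow, map_add, map_one, hφ]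
  have e2 : Af + 1 = (RatFunc.X + 1) ^ 3 * (RatFunc.X + 3) / (4 * RatFunc.X + 3) := by
    rw [Af_eq, div_add_one h4]
    congr 1
    ring
  have e3 : 4 * Bf + 27 = (4 * RatFunc.X + 3) * (RatFunc.X + 3) ^ 2 / (RatFunc.X + 1) ^ 2 := by
    rw [Bf_eq, eq_div_iff (pow_ne_zero _ h1), add_mul, mul_assoc,
      div_mul_cancel₀ _ (pow_ne_zero _ h1)]
    ring
  have e4 : Bf + 6 = (RatFunc.X ^ 3 + 6 * RatFunc.X ^ 2 + 12 * RatFunc.X + 6) /
      (RatFunc.X + 1) ^ 2 := by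
    rw [Bf_eq, eq_div_iff (pow_ne_zero _ h1), add_mul, div_mul_cancel₀ _ (pow_ne_zero _ h1)]
    ring
  rw [e1, e2, e3, e4, Af_eq, Bf_eq]
  field_simp

lemma const_not_mem_bot {g : RatFunc ℂ} (h : ∀ c : ℂ, g ≠ algebraMap ℂ (RatFunc ℂ) c) :
    g ∉ (⊥ : IntermediateField ℂ (RatFunc ℂ)) := by
  intro hg
  rw [IntermediateField.mem_bot] at hg
  obtain ⟨c, hc⟩ := hg
  exact h c hc.symm

lemma iter_hom (φ : RatFunc ℂ →ₐ[ℂ] RatFunc ℂ) (n : ℕ) :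
    ∃ Φ : RatFunc ℂ →ₐ[ℂ] RatFunc ℂ, ∀ u, Φ u = (⇑φ)^[n] u := by
  induction n with
  | zero => exact ⟨AlgHom.id ℂ _, fun u => rfl⟩
  | succ n ih =>
    obtain ⟨Φ, hΦ⟩ := ih
    refine ⟨Φ.comp φ, fun u => ?_⟩
    rw [Function.iterate_succ_apply, AlgHom.comp_apply, hΦ]

lemma maps_adjoin (φ : RatFunc ℂ →ₐ[ℂ] RatFunc ℂ) (b : RatFunc ℂ)
    (E : IntermediateField ℂ (RatFunc ℂ)) (hb : φ b ∈ E)
    (u : RatFunc ℂ) (hu : u ∈ IntermediateField.adjoin ℂ ({b} : Set (RatFunc ℂ))) : φ u ∈ E := by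
  induction hu using IntermediateField.adjoin_induction with
  | mem y hy =>
    rw [Set.mem_singleton_iff] at hy
    rw [hy]
    exact hb
  | algebraMap c =>
    rw [AlgHom.commutes]
    exact E.algebraMap_mem c
  | add a b _ _ ha hb =>
    rw [map_add]
    exact E.add_mem ha hb
  | inv a _ ha =>
    rw [map_inv₀]
    exact E.inv_mem ha
  | mul a b _ _ ha hb =>
    rw [map_mul]
    exact E.mul_mem ha hb

/-- condition (i) holds for `B` -/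
theorem cond_i (φ : RatFunc ℂ →ₐ[ℂ] RatFunc ℂ) (hφ : φ RatFunc.X = Af) (n : ℕ) :
    ∃ g : RatFunc ℂ,
      g ∈ IntermediateField.adjoin ℂ ({(⇑φ)^[n] RatFunc.X} : Set (RatFunc ℂ)) ∧
      g ∈ IntermediateField.adjoin ℂ ({Bf} : Set (RatFunc ℂ)) ∧
      g ∉ (⊥ : IntermediateField ℂ (RatFunc ℂ)) := by
  have hφB : φ Bf ∈ IntermediateField.adjoin ℂ ({Bf} : Set (RatFunc ℂ)) := by
    rw [semiconj φ hφ]
    set E := IntermediateField.adjoin ℂ ({Bf} : Set (RatFunc ℂ)) with hE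
    have hB : Bf ∈ E := IntermediateField.mem_adjoin_simple_self ℂ Bf
    have hn : ∀ k : ℕ, (k : RatFunc ℂ) ∈ E := fun k => natCast_mem E k
    have h6 : (6 : RatFunc ℂ) ∈ E := by exact_mod_cast hn 6
    have h4 : (4 : RatFunc ℂ) ∈ E := by exact_mod_cast hn 4
    have h27 : (27 : RatFunc ℂ) ∈ E := by exact_mod_cast hn 27
    exact E.div_mem (E.mul_mem hB (pow_mem (E.add_mem hB h6) 3))
      (E.add_mem (E.mul_mem h4 hB) h27)
  refine ⟨(⇑φ)^[n] Bf, ?_, ?_, ?_⟩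
  · obtain ⟨Φ, hΦ⟩ := iter_hom φ n
    rw [← hΦ, ← hΦ]
    apply maps_adjoin Φ RatFunc.X
    · exact IntermediateField.mem_adjoin_simple_self ℂ _
    · rw [RatFunc.adjoin_X]
      exact IntermediateField.mem_top
  · induction n with
    | zero => exact IntermediateField.mem_adjoin_simple_self ℂ Bf
    | succ n ih =>
      rw [Function.iterate_succ_apply']
      exact maps_adjoin φ Bf _ hφB _ ih
  · apply const_not_mem_bot
    intro c hc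
    obtain ⟨Φ, hΦ⟩ := iter_hom φ n
    have hΦinj : Function.Injective Φ := RingHom.injective Φ.toRingHom
    rw [← hΦ, ← Φ.commutes c] at hc
    exact Bf_ne_const c (hΦinj hc)

end

end Pool.Agent.Helper268.Cfd
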